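import Pool.Agent.H14.EX.Top
import Pool.Agent.H12.QKZ.Iface

/-! Arc recursion of the polynomial qKZ solution (EXACT project): `arc_zero_of`, `arc_of`. -/

namespace Pool.Agent.H14.EX

open H56.EX Pool.Agent.H12.QKZ

variable {L : ℕ}

/-! ### Push-forwards -/

/-- push-forward of a vector along a map of patterns -/
noncomputable def pf {L M : ℕ} (f : Pat L → Pat M) (v : Pat L → ℂ) (Q : Pat M) : ℂ :=
  ∑ P : Pat L, if f P = Q then v P else 0

lemma eop_eq_pf (i : ℤ) (v : Pat L → ℂ) : eop i v = pf (E i) v := rfl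

lemma pf_comp {L M N : ℕ} (f : Pat M → Pat N) (g : Pat L → Pat M) (v : Pat L → ℂ) :
    pf f (pf g v) = pf (fun P => f (g P)) v := by
  funext Q
  unfold pf
  have h1 : ∀ P' : Pat M, (if f P' = Q then ∑ P : Pat L, (if g P = P' then v P else 0) else 0) =
      ∑ P : Pat L, (if g P = P' then (if f (g P) = Q then v P else 0) else 0) := by
    intro P'
    split_ifs with h
    · apply Finset.sum_congr rfl
      intro P _
      by_cases h2 : g P = P'
      · rw [if_pos h2, if_pos h2, h2, if_pos h]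
      · rw [if_neg h2, if_neg h2]
    · symm
      apply Finset.sum_eq_zero
      intro P _
      by_cases h2 : g P = P'
      · rw [if_pos h2, h2, if_neg h]
      · rw [if_neg h2]
  simp only [h1]
  rw [Finset.sum_comm]
  apply Finset.sum_congr rfl
  intro P _
  rw [Finset.sum_ite_eq]
  simp

/-- push-forward of a vector supported on the range of an injective map -/
lemma sum_ins (i : ℤ) (g : Pat (L + 2) → ℂ) (hL : 2 ≤ L)
    (h : ∀ P, P.m i ≠ i + 1 → g P = 0) : ∑ P : Pat (L + 2), g P = ∑ P : Pat L, g (ins i P) := by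
  symm
  apply Fintype.sum_of_injective (ins i) (ins_injective i)
  · intro P hP
    apply h
    intro h2
    obtain ⟨Q, hQ⟩ := exists_ins hL i P h2
    exact hP ⟨Q, hQ.symm⟩
  · intro P; rfl

/-! ### `arc_zero` -/

/-- no pattern is mapped by `E i` to a pattern without small arc at `i` -/
lemma eop_zero (i : ℤ) (v : Pat L → ℂ) {P : Pat L} (h : P.m i ≠ i + 1) : eop i v P = 0 := by
  unfold eop
  apply Finset.sum_eq_zero
  intro P' _
  rw [if_neg]
  intro h2
  apply h
  rw [← h2, E.self]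

variable {Ψ : ∀ L : ℕ, Pat L → (ℤ → ℂ) → ℂ}

lemma q4 : q ^ 4 = q := by
  have := q_cube
  calc q ^ 4 = q ^ 3 * q := by ring
    _ = q := by rw [this, one_mul]

/-- continuity of a component along a curve of parameters -/
lemma Psi_continuous (h : PsiPre Ψ) (P : Pat L) (γ : ℂ → ℤ → ℂ)
    (hγ : ∀ x : ℤ, Continuous fun t => γ t x) : Continuous fun t => Ψ L P (γ t) := by
  obtain ⟨p, hp⟩ := h.mv L P
  have e : (fun t => Ψ L P (γ t)) =
      fun t => MvPolynomial.eval (fun k : Fin L => γ t ((k : ℕ) : ℤ)) p := by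
    funext t
    exact hp _
  rw [e]
  exact (MvPolynomial.continuous_eval p).comp (continuous_pi fun k => hγ _)

lemma not_Cg_self_succ (hL : 2 ≤ L) {x i : ℤ} (h : Cg L x i) : ¬ Cg L x (i + 1) := fun h' =>
  not_Cg_succ hL i (Cg.trans' (Cg.symm' h) h')

theorem arc_zero_of (h : PsiPre Ψ) : ∀ (L : ℕ) (P : Pat L) (ζ : ℤ → ℂ), Per L ζ → ∀ i : ℤ,
    ζ i = q ^ 2 * ζ (i + 1) → P.m i ≠ i + 1 → Ψ L P ζ = 0 := by
  intro L P ζ hper i hi hP
  have hL2 := P.two_le
  -- nonzero case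
  have key : ∀ ζ : ℤ → ℂ, Per L ζ → ζ i = q ^ 2 * ζ (i + 1) → ζ (i + 1) ≠ 0 → Ψ L P ζ = 0 := by
    intro ζ hper hi h0
    have hex := h.exch L P ζ hper i
    rw [eop_zero i _ hP, mul_zero, add_zero, hi, q_inv] at hex
    have e1 : q * ζ (i + 1) - q ^ 2 * (q ^ 2 * ζ (i + 1)) = 0 := by
      linear_combination (- ζ (i + 1)) * q4
    have e2 : q * (q ^ 2 * ζ (i + 1)) - q ^ 2 * ζ (i + 1) = (1 - q ^ 2) * ζ (i + 1) := by
      linear_combination (ζ (i + 1)) * q_cube
    rw [e1, e2, zero_mul] at hex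
    have h1 : (1 - q ^ 2) ≠ 0 := by
      intro h1
      have h2 : q ^ 2 = 1 := by linear_combination -h1
      have h3 := q_cube
      have h4 : q = 1 := by
        calc q = q ^ 2 * q := by rw [h2, one_mul]
          _ = q ^ 3 := by ring
          _ = 1 := h3
      exact q_ne_one h4
    rcases mul_eq_zero.1 hex.symm with h2 | h2
    · exact absurd h2 (mul_ne_zero h1 h0)
    · exact h2
  by_cases h0 : ζ (i + 1) = 0
  · -- the curve `t ↦ (q² t, t)`
    let γ : ℂ → ℤ → ℂ := fun t => upd L (upd L ζ i (q ^ 2 * t)) (i + 1) t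
    have hγ : ∀ x : ℤ, Continuous fun t => γ t x := by
      intro x
      simp only [γ, upd]
      split_ifs
      · exact continuous_id
      · fun_prop
      · exact continuous_const
    have c1 : Cg L (i + 1) (i + 1) := Cg.refl' _
    have c2 : Cg L i i := Cg.refl' _
    have c3 : ¬ Cg L i (i + 1) := not_Cg_succ hL2 i
    have hγ1 : ∀ t, γ t (i + 1) = t := by
      intro t; simp only [γ, upd, if_pos c1]
    have hγ0 : ∀ t, γ t i = q ^ 2 * t := by
      intro t; simp only [γ, upd, if_neg c3, if_pos c2]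
    have hγper : ∀ t, Per L (γ t) := by
      intro t x
      have e1 : Cg L (x + L) (i + 1) ↔ Cg L x (i + 1) := by
        have hx : Cg L (x + L) x := ⟨1, by ring⟩
        exact ⟨fun h => Cg.trans' (Cg.symm' hx) h, fun h => Cg.trans' hx h⟩
      have e2 : Cg L (x + L) i ↔ Cg L x i := by
        have hx : Cg L (x + L) x := ⟨1, by ring⟩
        exact ⟨fun h => Cg.trans' (Cg.symm' hx) h, fun h => Cg.trans' hx h⟩
      simp only [γ, upd, e1, e2, hper x]
    have hc := Psi_continuous h P γ hγ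
    have hz : ∀ t : ℂ, t ≠ 0 → Ψ L P (γ t) = 0 := by
      intro t ht
      exact key (γ t) (hγper t) (by rw [hγ0, hγ1]) (by rw [hγ1]; exact ht)
    have hall : (fun t => Ψ L P (γ t)) = fun _ => (0 : ℂ) := by
      apply Continuous.ext_on (s := ({0}ᶜ : Set ℂ)) (dense_compl_singleton 0) hc continuous_const
      intro t ht
      exact hz t ht
    have h00 : Ψ L P (γ 0) = 0 := congrFun hall 0
    have e : γ 0 = ζ := by
      funext x
      simp only [γ, upd]
      split_ifs with h1 h2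
      · obtain ⟨a, rfl⟩ := Cg_def.1 h1
        have : ζ (i + 1 + L * a) = ζ (i + 1) := by
          clear h1
          induction a using Int.induction_on with
          | zero => simp
          | succ a ih =>
            rw [show i + 1 + (L : ℤ) * (a + 1) = i + 1 + L * a + L by ring, hper, ih]
          | pred a ih =>
            have := hper (i + 1 + (L : ℤ) * (-a - 1))
            rw [show i + 1 + (L : ℤ) * (-a - 1) + L = i + 1 + L * -a by ring, ih] at this
            exact this.symm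
        rw [this, h0]
      · obtain ⟨a, rfl⟩ := Cg_def.1 h2
        have : ζ (i + L * a) = ζ i := by
          clear h2 h1
          induction a using Int.induction_on with
          | zero => simp
          | succ a ih =>
            rw [show i + (L : ℤ) * (a + 1) = i + L * a + L by ring, hper, ih]
          | pred a ih =>
            have := hper (i + (L : ℤ) * (-a - 1))
            rw [show i + (L : ℤ) * (-a - 1) + L = i + L * -a by ring, ih] at this
            exact this.symm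
        rw [this, hi, h0]
      · rfl
    rw [e] at h00
    exact h00
  · exact key ζ hper hi h0

/-- periodicity by multiples of the period -/
lemma Per_mul {ξ : ℤ → ℂ} (h : Per L ξ) (x a : ℤ) : ξ (x + L * a) = ξ x := by
  induction a using Int.induction_on with
  | zero => simp
  | succ a ih => rw [show x + (L : ℤ) * (a + 1) = x + L * a + L by ring, h, ih]
  | pred a ih =>
    have := h (x + (L : ℤ) * (-a - 1))
    rw [show x + (L : ℤ) * (-a - 1) + L = x + L * -a by ring, ih] at this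
    exact this.symm

lemma Per_Cg {ξ : ℤ → ℂ} (h : Per L ξ) {x y : ℤ} (hxy : Cg L x y) : ξ x = ξ y := by
  obtain ⟨a, rfl⟩ := Cg_def.1 hxy
  exact Per_mul h y a

/-! ### Insertion of the parameters `q² w, w` -/

/-- the parameters `ξ` with `q² w, w` inserted at `i, i+1` -/
noncomputable def insp (L : ℕ) (i : ℤ) (w : ℂ) (ξ : ℤ → ℂ) : ℤ → ℂ :=
  fun x => if Cg (L + 2) x i then q ^ 2 * w else if Cg (L + 2) x (i + 1) then w else ξ (psi L i x)

lemma insp_i {i x : ℤ} {w : ℂ} {ξ : ℤ → ℂ} (h : Cg (L + 2) x i) :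
    insp L i w ξ x = q ^ 2 * w := by
  simp only [insp, if_pos h]

lemma insp_succ {i x : ℤ} {w : ℂ} {ξ : ℤ → ℂ} (h : Cg (L + 2) x (i + 1)) :
    insp L i w ξ x = w := by
  have h' : ¬ Cg (L + 2) x i := fun h' => not_Cg_self_succ (by omega) h' h
  simp only [insp, if_neg h', if_pos h]

lemma insp_phi (hL : 1 ≤ L) (i y : ℤ) (w : ℂ) (ξ : ℤ → ℂ) :
    insp L i w ξ (phi L i y) = ξ y := by
  have := phi_not hL i y
  simp only [insp, if_neg this.1, if_neg this.2, psi_phi hL]

lemma insp_Per (hL : 1 ≤ L) {ξ : ℤ → ℂ} (h : Per L ξ) (i : ℤ) (w : ℂ) :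
    Per (L + 2) (insp L i w ξ) := by
  intro x
  have hd : Cg (L + 2) (x + ((L + 2 : ℕ) : ℤ)) x := ⟨1, by ring⟩
  rcases pos_cases hL i x with hx | hx | ⟨y, rfl⟩
  · rw [insp_i hx, insp_i (Cg.trans' hd hx)]
  · rw [insp_succ hx, insp_succ (Cg.trans' hd hx)]
  · have e : phi L i y + ((L + 2 : ℕ) : ℤ) = phi L i (y + L) := by
      rw [phi_add_L hL]; push_cast; ring
    rw [e, insp_phi hL, insp_phi hL, h]

/-- every periodic family with `ζ_i = q² ζ_{i+1}` is an insertion -/
lemma eq_insp (hL : 1 ≤ L) {ζ : ℤ → ℂ} (h : Per (L + 2) ζ) (i : ℤ)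
    (hi : ζ i = q ^ 2 * ζ (i + 1)) :
    ζ = insp L i (ζ (i + 1)) (fun y => ζ (phi L i y)) := by
  funext x
  rcases pos_cases hL i x with hx | hx | ⟨y, rfl⟩
  · rw [insp_i hx, Per_Cg h hx, hi]
  · rw [insp_succ hx, Per_Cg h hx]
  · rw [insp_phi hL]

lemma phi_Per (hL : 1 ≤ L) {ζ : ℤ → ℂ} (h : Per (L + 2) ζ) (i : ℤ) :
    Per L (fun y => ζ (phi L i y)) := by
  intro y
  show ζ (phi L i (y + L)) = ζ (phi L i y)
  rw [phi_add_L hL]
  have := h (phi L i y)
  push_cast at this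
  exact this

lemma swp_i {N : ℕ} {i x : ℤ} {ζ : ℤ → ℂ} (h : Cg N x i) : swp N i ζ x = ζ (x + 1) := by
  simp only [swp, if_pos h]

lemma swp_succ {N : ℕ} (hN : 2 ≤ N) {i x : ℤ} {ζ : ℤ → ℂ} (h : Cg N x (i + 1)) :
    swp N i ζ x = ζ (x - 1) := by
  have h' : ¬ Cg N x i := fun h' => not_Cg_self_succ hN h' h
  simp only [swp, if_neg h', if_pos h]

lemma swp_other {N : ℕ} {i x : ℤ} {ζ : ℤ → ℂ} (h : ¬ Cg N x i) (h' : ¬ Cg N x (i + 1)) :
    swp N i ζ x = ζ x := by
  simp only [swp, if_neg h, if_neg h']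

/-- moving the inserted pair by one step -/
lemma insp_move (hL : 2 ≤ L) (i : ℤ) (w : ℂ) (ξ : ℤ → ℂ) :
    swp (L + 2) i (swp (L + 2) (i + 1) (insp L i w ξ)) = insp L (i + 1) w ξ := by
  have hL1 : 1 ≤ L := by omega
  have far : ∀ {x c d : ℤ}, Cg (L + 2) x c → c ≠ d → c - d < L + 2 → d - c < L + 2 →
      ¬ Cg (L + 2) x d := by
    intro x c d h1 h2 h3 h4 h5
    exact h2 (Cg_eq (Cg.trans' (Cg.symm' h1) h5) (by push_cast; omega) (by push_cast; omega))
  funext x
  rcases pos_cases hL1 (i + 1) x with hx | hx | ⟨y, rfl⟩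
  · -- `x ≡ i + 1`
    have hx' : Cg (L + 2) (x - 1) i := by
      have := Cg.sub 1 hx
      rwa [show i + 1 - 1 = i by ring] at this
    rw [swp_succ (by omega) hx, swp_other (far hx' (by omega) (by omega) (by omega))
      (far hx' (by omega) (by omega) (by omega)), insp_i hx', insp_i hx]
  · -- `x ≡ i + 2`
    have hx' : Cg (L + 2) (x - 1) (i + 1) := by
      have := Cg.sub 1 hx
      rwa [show i + 1 + 1 - 1 = i + 1 by ring] at this
    rw [swp_other (far hx (by omega) (by omega) (by omega))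
      (far hx (by omega) (by omega) (by omega)), swp_succ (by omega) hx, insp_succ hx',
      insp_succ hx]
  · rw [insp_phi hL1]
    obtain ⟨n1, n2⟩ := phi_not hL1 (i + 1) y
    by_cases hy : Cg L y i
    · have e := phi_succ_of hL1 hy
      have c2 := phi_Cg hL1 hy
      have c0 : Cg (L + 2) (phi L (i + 1) y) i := by
        rw [e]
        have := Cg.sub 2 c2
        rwa [show i + 2 - 2 = i by ring] at this
      rw [swp_i c0, swp_i (Cg.add 1 c0), e, show phi L i y - 2 + 1 + 1 = phi L i y by ring,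
        insp_phi hL1]
    · have e := phi_succ_of_not hL1 hy
      have n0 : ¬ Cg (L + 2) (phi L (i + 1) y) i := by
        rw [e]; exact (phi_not hL1 i y).1
      rw [swp_other n0 n1, swp_other n1 n2, e, insp_phi hL1]

/-- exchange of parameters away from the inserted pair -/
lemma insp_swp (hL : 2 ≤ L) (j : ℤ) (w : ℂ) (ξ : ℤ → ℂ) :
    swp (L + 2) j (insp L (j + 2) w ξ) = insp L (j + 2) w (swp L j ξ) := by
  have hL1 : 1 ≤ L := by omega
  have far : ∀ {x c d : ℤ}, Cg (L + 2) x c → c ≠ d → c - d < L + 2 → d - c < L + 2 →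
      ¬ Cg (L + 2) x d := by
    intro x c d h1 h2 h3 h4 h5
    exact h2 (Cg_eq (Cg.trans' (Cg.symm' h1) h5) (by push_cast; omega) (by push_cast; omega))
  funext x
  rcases pos_cases hL1 (j + 2) x with hx | hx | ⟨y, rfl⟩
  · rw [swp_other (far hx (by omega) (by omega) (by omega))
      (far hx (by omega) (by omega) (by omega)), insp_i hx, insp_i hx]
  · rw [swp_other (far hx (by omega) (by omega) (by omega))
      (far hx (by omega) (by omega) (by omega)), insp_succ hx, insp_succ hx]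
  · rw [insp_phi hL1]
    obtain ⟨c1, c2⟩ := phi_far_Cg hL j y
    by_cases hy1 : Cg L y j
    · rw [swp_i (c1.2 hy1), swp_i hy1, ← phi_far_add hL hy1, insp_phi hL1]
    by_cases hy2 : Cg L y (j + 1)
    · rw [swp_succ (by omega) (c2.2 hy2), swp_succ hL hy2, ← phi_far_sub hL hy2, insp_phi hL1]
    rw [swp_other (fun h => hy1 (c1.1 h)) (fun h => hy2 (c2.1 h)), swp_other hy1 hy2,
      insp_phi hL1]

/-- rotation of the inserted parameters -/
lemma insp_rot (hL : 1 ≤ L) (i : ℤ) (w : ℂ) (ξ : ℤ → ℂ) :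
    (fun x => insp L i w ξ (x - 1)) = insp L (i + 1) w (fun x => ξ (x - 1)) := by
  funext x
  rcases pos_cases hL i (x - 1) with h | h | ⟨y, hy⟩
  · have h' := Cg.add 1 h
    rw [show x - 1 + 1 = x by ring] at h'
    rw [insp_i h, insp_i h']
  · have h' := Cg.add 1 h
    rw [show x - 1 + 1 = x by ring] at h'
    rw [insp_succ h, insp_succ h']
  · have e : x = phi L (i + 1) (y + 1) := by rw [phi_shift, ← hy]; ring
    rw [hy, insp_phi hL, e, insp_phi hL, show y + 1 - 1 = y by ring]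

lemma insp_apply_j (hL : 2 ≤ L) (j : ℤ) (w : ℂ) (ξ : ℤ → ℂ) :
    insp L (j + 2) w ξ j = ξ j ∧ insp L (j + 2) w ξ (j + 1) = ξ (j + 1) := by
  have hL1 : 1 ≤ L := by omega
  have e := phi_far hL j 0
  simp only [mul_zero, add_zero] at e
  have h1 := insp_phi hL1 (j + 2) j w ξ
  have h2 := insp_phi hL1 (j + 2) (j + 1) w ξ
  rw [e.1] at h1
  rw [e.2] at h2
  exact ⟨h1, h2⟩

/-! ### The inserted vector -/

/-- `e_i` fixes the solution at `ζ_i = q² ζ_{i+1}` -/
lemma eop_fix (h : PsiPre Ψ) {N : ℕ} {ζ : ℤ → ℂ} (hper : Per N ζ) {i : ℤ}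
    (hi : ζ i = q ^ 2 * ζ (i + 1)) : eop i (fun P => Ψ N P ζ) = fun P => Ψ N P ζ := by
  funext Q
  unfold eop
  have e : ∀ P' : Pat N, (if E i P' = Q then Ψ N P' ζ else 0) =
      (if P' = Q then Ψ N P' ζ else 0) := by
    intro P'
    by_cases hP : P'.m i = i + 1
    · rw [E.eq_self P' i hP]
    · rw [arc_zero_of h N P' ζ hper i hi hP]
      simp
  simp only [e, Finset.sum_ite_eq', Finset.mem_univ, if_true]

/-- step (1): the inserted pair can be moved -/
lemma move_vec (h : PsiPre Ψ) (hL : 2 ≤ L) {ξ : ℤ → ℂ} (hper : Per L ξ) (i : ℤ) {w : ℂ}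
    (hw : ξ i ≠ w) (hqw : ξ i ≠ q * w) (Q : Pat (L + 2)) :
    Ψ (L + 2) Q (insp L (i + 1) w ξ) =
      eop (i + 1) (fun P => Ψ (L + 2) P (insp L i w ξ)) Q := by
  have hL1 : 1 ≤ L := by omega
  set ζ := insp L i w ξ with hζ
  set b := ξ i with hb
  have hζper : Per (L + 2) ζ := insp_Per hL1 hper i w
  have z0 : ζ i = q ^ 2 * w := insp_i (Cg.refl' _)
  have z1 : ζ (i + 1) = w := insp_succ (Cg.refl' _)
  have z2 : ζ (i + 1 + 1) = b := by
    have e := phi_form hL1 i 0 0 le_rfl (by omega)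
    rw [show i + 0 + (L : ℤ) * 0 = i by ring, show i + 0 + 2 + ((L : ℤ) + 2) * 0 = i + 1 + 1 by
      ring] at e
    rw [← e, hζ, insp_phi hL1]
  set v : Pat (L + 2) → ℂ := fun P => Ψ (L + 2) P ζ with hv
  set ζ' := swp (L + 2) (i + 1) ζ with hζ'
  have far : ∀ {x c d : ℤ}, Cg (L + 2) x c → c ≠ d → c - d < L + 2 → d - c < L + 2 →
      ¬ Cg (L + 2) x d := by
    intro x c d h1 h2 h3 h4 h5
    exact h2 (Cg_eq (Cg.trans' (Cg.symm' h1) h5) (by push_cast; omega) (by push_cast; omega))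
  have y0 : ζ' i = q ^ 2 * w := by
    rw [hζ', swp_other (far (Cg.refl' i) (by omega) (by omega) (by omega))
      (far (Cg.refl' i) (by omega) (by omega) (by omega)), z0]
  have y1 : ζ' (i + 1) = b := by rw [hζ', swp_i (Cg.refl' _), z2]
  have hζ'per : Per (L + 2) ζ' := by
    intro x
    have hd : Cg (L + 2) (x + ((L + 2 : ℕ) : ℤ)) x := ⟨1, by ring⟩
    by_cases h1 : Cg (L + 2) x (i + 1)
    · rw [hζ', swp_i h1, swp_i (Cg.trans' hd h1),
        show x + ((L + 2 : ℕ) : ℤ) + 1 = x + 1 + ((L + 2 : ℕ) : ℤ) by ring, hζper]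
    by_cases h2 : Cg (L + 2) x (i + 1 + 1)
    · rw [hζ', swp_succ (by omega) h2, swp_succ (by omega) (Cg.trans' hd h2),
        show x + ((L + 2 : ℕ) : ℤ) - 1 = x - 1 + ((L + 2 : ℕ) : ℤ) by ring, hζper]
    · rw [hζ', swp_other h1 h2, swp_other (fun h => h1 (Cg.trans' (Cg.symm' hd) h))
        (fun h => h2 (Cg.trans' (Cg.symm' hd) h)), hζper]
  have hmove : swp (L + 2) i ζ' = insp L (i + 1) w ξ := insp_move hL i w ξ
  -- exchange relations
  have ex1 : ∀ P, (q * b - q⁻¹ * w) * Ψ (L + 2) P ζ' =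
      (q * w - q⁻¹ * b) * v P + (w - b) * eop (i + 1) v P := by
    intro P
    have := h.exch (L + 2) P ζ hζper (i + 1)
    rw [z1, z2] at this
    exact this
  have ex2 := h.exch (L + 2) Q ζ' hζ'per i
  rw [y0, y1, hmove] at ex2
  have hfix : eop i v = v := eop_fix h hζper (by rw [z0, z1])
  -- `e_i e_{i+1} v = v`
  have htl : eop i (eop (i + 1) v) = v := by
    have e1 : eop i (eop (i + 1) (eop i v)) = eop i v := by
      rw [eop_eq_pf i v, eop_eq_pf (i + 1), eop_eq_pf i, pf_comp, pf_comp]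
      congr 1
      funext P
      exact E_braid i P (by omega)
    rw [hfix] at e1
    exact e1
  -- `A e_i u = B v + (w - b) v`
  have ex3 : (q * b - q⁻¹ * w) * eop i (fun P => Ψ (L + 2) P ζ') Q =
      (q * w - q⁻¹ * b) * v Q + (w - b) * v Q := by
    have e1 : (q * b - q⁻¹ * w) * eop i (fun P => Ψ (L + 2) P ζ') Q =
        (q * w - q⁻¹ * b) * eop i v Q + (w - b) * eop i (eop (i + 1) v) Q := by
      unfold eop
      rw [Finset.mul_sum, Finset.mul_sum, Finset.mul_sum, ← Finset.sum_add_distrib]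
      apply Finset.sum_congr rfl
      intro P _
      have := ex1 P
      unfold eop at this
      split_ifs
      · exact this
      · ring
    rw [e1, hfix, htl]
  have hA : (q * b - q⁻¹ * w) ≠ 0 := by
    intro h0
    apply hqw
    rw [q_inv] at h0
    have h1 : q ^ 2 * (q * b - q ^ 2 * w) = 0 := by rw [h0, mul_zero]
    linear_combination h1 - b * q_cube + w * q4
  have hC : (q * b - q⁻¹ * (q ^ 2 * w)) ≠ 0 := by
    intro h0
    apply hw
    rw [q_inv] at h0
    have h1 : q ^ 2 * (q * b - q ^ 2 * (q ^ 2 * w)) = 0 := by rw [h0, mul_zero]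
    linear_combination h1 - b * q_cube + (w * (q ^ 3 + 1)) * q_cube
  have ex4 := ex1 Q
  apply mul_left_cancel₀ (mul_ne_zero hA hC)
  have goal : (q * b - q⁻¹ * w) * ((q * b - q⁻¹ * (q ^ 2 * w)) *
      Ψ (L + 2) Q (insp L (i + 1) w ξ)) = (q * b - q⁻¹ * w) * (q * b - q⁻¹ * (q ^ 2 * w)) *
      eop (i + 1) v Q := by
    rw [ex2]
    have e1 : (q * b - q⁻¹ * w) * ((q * (q ^ 2 * w) - q⁻¹ * b) * Ψ (L + 2) Q ζ' +
        (q ^ 2 * w - b) * eop i (fun P' => Ψ (L + 2) P' ζ') Q) =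
        (q * (q ^ 2 * w) - q⁻¹ * b) * ((q * b - q⁻¹ * w) * Ψ (L + 2) Q ζ') +
        (q ^ 2 * w - b) * ((q * b - q⁻¹ * w) * eop i (fun P' => Ψ (L + 2) P' ζ') Q) := by ring
    rw [e1, ex3, ex4, q_inv]
    linear_combination (-(b * w * v Q) + b ^ 2 * v Q - q * b ^ 2 * v Q + q ^ 2 * w ^ 2 * v Q -
      q ^ 2 * b * w * eop (i + 1) v Q + q ^ 2 * b ^ 2 * v Q + q ^ 3 * w ^ 2 * eop (i + 1) v Q +
      q ^ 3 * b * w * eop (i + 1) v Q - q ^ 3 * b * w * v Q -
      q ^ 4 * w ^ 2 * eop (i + 1) v Q) * q_sq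
  rw [← goal]
  ring

/-- the components of the inserted vector -/
noncomputable def Th (Ψ : ∀ L : ℕ, Pat L → (ℤ → ℂ) → ℂ) (i : ℤ) (w : ℂ) (P : Pat L)
    (ξ : ℤ → ℂ) : ℂ := Ψ (L + 2) (ins i P) (insp L i w ξ)

lemma ins_inj_iff (i : ℤ) (P Q : Pat L) : ins i P = ins i Q ↔ P = Q :=
  ⟨fun h => ins_injective i h, fun h => by rw [h]⟩

/-- step (1) for the components -/
lemma Th_succ (h : PsiPre Ψ) (hL : 2 ≤ L) {ξ : ℤ → ℂ} (hper : Per L ξ) (i : ℤ) {w : ℂ}
    (hw : ξ i ≠ w) (hqw : ξ i ≠ q * w) (P : Pat L) : Th Ψ (i + 1) w P ξ = Th Ψ i w P ξ := by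
  have hL1 : 1 ≤ L := by omega
  unfold Th
  rw [move_vec h hL hper i hw hqw]
  have hζper : Per (L + 2) (insp L i w ξ) := insp_Per hL1 hper i w
  have z0 : insp L i w ξ i = q ^ 2 * insp L i w ξ (i + 1) := by
    rw [insp_i (Cg.refl' _), insp_succ (Cg.refl' _)]
  unfold eop
  rw [sum_ins i _ hL]
  · simp only [E_succ_ins, ins_inj_iff, Finset.sum_ite_eq', Finset.mem_univ, if_true]
  · intro P' hP'
    show (if E (i + 1) P' = ins (i + 1) P then Ψ (L + 2) P' (insp L i w ξ) else 0) = 0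
    rw [arc_zero_of h _ P' _ hζper i z0 hP']
    simp

/-- step (1), all positions -/
lemma Th_indep (h : PsiPre Ψ) (hL : 2 ≤ L) {ξ : ℤ → ℂ} (hper : Per L ξ) {w : ℂ}
    (hw : ∀ x, ξ x ≠ w ∧ ξ x ≠ q * w) (P : Pat L) (i : ℤ) : Th Ψ i w P ξ = Th Ψ 0 w P ξ := by
  induction i using Int.induction_on with
  | zero => rfl
  | succ a ih => rw [Th_succ h hL hper _ (hw _).1 (hw _).2, ih]
  | pred a ih =>
    have := Th_succ h hL hper (-(a : ℤ) - 1) (hw _).1 (hw _).2 P
    rw [show -(a : ℤ) - 1 + 1 = -a by ring, ih] at this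
    exact this.symm

/-- step (2): exchange relation for the inserted vector -/
lemma Th_exch (h : PsiPre Ψ) (hL : 2 ≤ L) {ξ : ℤ → ℂ} (hper : Per L ξ) (j : ℤ) (w : ℂ)
    (P : Pat L) :
    (q * ξ (j + 1) - q⁻¹ * ξ j) * Th Ψ (j + 2) w P (swp L j ξ) =
      (q * ξ j - q⁻¹ * ξ (j + 1)) * Th Ψ (j + 2) w P ξ +
        (ξ j - ξ (j + 1)) * eop j (fun P' => Th Ψ (j + 2) w P' ξ) P := by
  have hL1 : 1 ≤ L := by omega
  have hζper : Per (L + 2) (insp L (j + 2) w ξ) := insp_Per hL1 hper _ w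
  have hex := h.exch (L + 2) (ins (j + 2) P) _ hζper j
  rw [(insp_apply_j hL j w ξ).1, (insp_apply_j hL j w ξ).2, insp_swp hL] at hex
  have z0 : insp L (j + 2) w ξ (j + 2) = q ^ 2 * insp L (j + 2) w ξ (j + 2 + 1) := by
    rw [insp_i (Cg.refl' _), insp_succ (Cg.refl' _)]
  have e : eop j (fun P' => Ψ (L + 2) P' (insp L (j + 2) w ξ)) (ins (j + 2) P) =
      eop j (fun P' => Th Ψ (j + 2) w P' ξ) P := by
    unfold eop
    rw [sum_ins (j + 2) _ hL]
    · simp only [E_ins_far, ins_inj_iff]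
      rfl
    · intro P' hP'
      show (if E j P' = ins (j + 2) P then Ψ (L + 2) P' (insp L (j + 2) w ξ) else 0) = 0
      rw [arc_zero_of h _ P' _ hζper (j + 2) z0 hP']
      simp
  rw [e] at hex
  exact hex

/-- step (3): rotation -/
lemma Th_rot (h : PsiPre Ψ) (hL : 1 ≤ L) {ξ : ℤ → ℂ} (hper : Per L ξ) (i : ℤ) (w : ℂ)
    (P : Pat L) : Th Ψ (i + 1) w (rot P) (fun x => ξ (x - 1)) = Th Ψ i w P ξ := by
  unfold Th
  rw [← rot_ins, ← insp_rot hL]
  exact h.rot (L + 2) (ins i P) _ (insp_Per hL hper i w)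

/-- one factor of the base component -/
lemma base_factor (x w : ℂ) : (q * x - q⁻¹ * w) / (q - q⁻¹) * ((q * (q ^ 2 * w) - q⁻¹ * x) /
    (q - q⁻¹)) = (x - q * w) ^ 2 / 3 := by
  have h3 : (q - q⁻¹) * (q - q⁻¹) = -3 := by
    rw [q_inv]
    linear_combination (q ^ 2 - 3 * q + 3) * q_sq
  have h0 : (q - q⁻¹) ≠ 0 := by
    intro h0
    rw [h0] at h3
    norm_num at h3
  rw [div_mul_div_comm, h3, q_inv]
  rw [div_eq_div_iff (by norm_num) (by norm_num)]
  linear_combination (3 * x ^ 2 - 6 * q * x * w - 3 * q * x ^ 2 + 3 * q ^ 2 * w ^ 2 +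
    6 * q ^ 2 * x * w - 3 * q ^ 3 * w ^ 2) * q_sq

lemma base_factor0 (w : ℂ) : (q * (q ^ 2 * w) - q⁻¹ * w) / (q - q⁻¹) = -q * w := by
  have h3 : (q - q⁻¹) * (q - q⁻¹) = -3 := by
    rw [q_inv]
    linear_combination (q ^ 2 - 3 * q + 3) * q_sq
  have h0 : (q - q⁻¹) ≠ 0 := by
    intro h0
    rw [h0] at h3
    norm_num at h3
  rw [div_eq_iff h0, q_inv]
  ring

/-- step (4): the base component -/
lemma Th_base (h : PsiPre Ψ) {ξ : ℤ → ℂ} (hper : Per L ξ) (w : ℂ)
    (P : Pat L) (hP : IsBase P) : Th Ψ 0 w P ξ =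
      (-q * w * (∏ s ∈ Finset.range L, (ξ s - q * w) ^ 2) / 3 ^ L) * Ψ L P ξ := by
  have hL2 := P.two_le
  have hL1 : 1 ≤ L := by omega
  obtain ⟨B, hB, hBe⟩ := base_ins P hP
  unfold Th
  rw [hBe]
  set ζ' : ℤ → ℂ := fun x => insp L 0 w ξ (x + 1) with hζ'
  have hζper : Per (L + 2) (insp L 0 w ξ) := insp_Per hL1 hper 0 w
  have hζ'per : Per (L + 2) ζ' := by
    intro x
    simp only [hζ']
    rw [show x + ((L + 2 : ℕ) : ℤ) + 1 = x + 1 + ((L + 2 : ℕ) : ℤ) by ring, hζper]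
  have e1 : insp L 0 w ξ = fun x => ζ' (x - 1) := by
    funext x
    simp only [hζ']
    rw [show x - 1 + 1 = x by ring]
  rw [e1, h.rot (L + 2) B ζ' hζ'per, h.base (L + 2) B ζ' hB, h.base L P ξ hP]
  -- values of `ζ'`
  have v0 : ζ' ((0 : ℕ) : ℤ) = w := by
    simp only [hζ']
    exact insp_succ ⟨0, by simp⟩
  have v1 : ∀ s : ℕ, s < L → ζ' ((s + 1 : ℕ) : ℤ) = ξ s := by
    intro s hs
    simp only [hζ']
    have := phi_form hL1 0 0 s (by omega) (by omega)
    rw [show (0 : ℤ) + s + L * 0 = s by ring] at this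
    have e : (((s + 1 : ℕ) : ℤ) + 1) = phi L 0 s := by rw [this]; push_cast; ring
    rw [e, insp_phi hL1]
  have v2 : ζ' ((L + 1 : ℕ) : ℤ) = q ^ 2 * w := by
    simp only [hζ']
    apply insp_i
    exact ⟨1, by push_cast; ring⟩
  -- the products
  rw [Finset.prod_range_succ]
  have p1 : ∏ i ∈ Finset.range (L + 1), (q * ζ' ((L + 1 : ℕ) : ℤ) - q⁻¹ * ζ' (i : ℤ)) /
      (q - q⁻¹) = (∏ s ∈ Finset.range L, (q * (q ^ 2 * w) - q⁻¹ * ξ s) / (q - q⁻¹)) *
        (-q * w) := by
    rw [Finset.prod_range_succ', v0, v2, base_factor0]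
    congr 1
    apply Finset.prod_congr rfl
    intro s hs
    rw [v1 s (Finset.mem_range.1 hs)]
  have p2 : ∏ j ∈ Finset.range (L + 1), ∏ i ∈ Finset.range j,
      (q * ζ' (j : ℤ) - q⁻¹ * ζ' (i : ℤ)) / (q - q⁻¹) =
      (∏ s ∈ Finset.range L, (q * ξ s - q⁻¹ * w) / (q - q⁻¹)) *
        ∏ j ∈ Finset.range L, ∏ i ∈ Finset.range j, (q * ξ j - q⁻¹ * ξ i) / (q - q⁻¹) := by
    rw [Finset.prod_range_succ', Finset.range_zero, Finset.prod_empty, mul_one,
      ← Finset.prod_mul_distrib]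
    apply Finset.prod_congr rfl
    intro s hs
    rw [Finset.mem_range] at hs
    rw [Finset.prod_range_succ', v0, v1 s hs, mul_comm]
    congr 1
    apply Finset.prod_congr rfl
    intro t ht
    rw [Finset.mem_range] at ht
    rw [v1 t (by omega)]
  rw [p1, p2]
  have p3 : (∏ s ∈ Finset.range L, (ξ s - q * w) ^ 2) / 3 ^ L =
      (∏ s ∈ Finset.range L, (q * ξ s - q⁻¹ * w) / (q - q⁻¹)) *
      (∏ s ∈ Finset.range L, (q * (q ^ 2 * w) - q⁻¹ * ξ s) / (q - q⁻¹)) := by
    rw [← Finset.prod_mul_distrib]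
    have : ∀ s ∈ Finset.range L, (q * ξ (s : ℤ) - q⁻¹ * w) / (q - q⁻¹) *
        ((q * (q ^ 2 * w) - q⁻¹ * ξ s) / (q - q⁻¹)) = (ξ s - q * w) ^ 2 / 3 :=
      fun s _ => base_factor _ _
    rw [Finset.prod_congr rfl this, Finset.prod_div_distrib, Finset.prod_const, Finset.card_range]
  rw [mul_div_assoc, p3]
  ring

/-! ### Products over a period -/

lemma prod_period {ψ : ℤ → ℂ} (h : Per L ψ) (i : ℤ) :
    ∏ s ∈ Finset.range L, ψ (i + s) = ∏ s ∈ Finset.range L, ψ s := by
  have step : ∀ i : ℤ, ∏ s ∈ Finset.range L, ψ (i + 1 + s) = ∏ s ∈ Finset.range L, ψ (i + s) := by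
    intro i
    have e1 : ∏ s ∈ Finset.range (L + 1), ψ (i + s) =
        (∏ s ∈ Finset.range L, ψ (i + 1 + s)) * ψ i := by
      rw [Finset.prod_range_succ']
      congr 1
      · apply Finset.prod_congr rfl
        intro s _
        congr 1
        push_cast
        ring
      · simp
    have e2 : ∏ s ∈ Finset.range (L + 1), ψ (i + s) =
        (∏ s ∈ Finset.range L, ψ (i + s)) * ψ i := by
      rw [Finset.prod_range_succ, h]
    rcases Nat.eq_zero_or_pos L with hL | hL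
    · subst hL; simp
    · by_cases h0 : ψ i = 0
      · have a1 : ∏ s ∈ Finset.range L, ψ (i + s) = 0 := by
          apply Finset.prod_eq_zero (Finset.mem_range.2 hL)
          simpa using h0
        have a2 : ∏ s ∈ Finset.range L, ψ (i + 1 + s) = 0 := by
          apply Finset.prod_eq_zero (Finset.mem_range.2 (show L - 1 < L by omega))
          have : i + 1 + ((L - 1 : ℕ) : ℤ) = i + L := by
            have : ((L - 1 : ℕ) : ℤ) = (L : ℤ) - 1 := by omega
            rw [this]; ring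
          rw [this, h, h0]
        rw [a1, a2]
      · apply mul_right_cancel₀ h0
        rw [← e1, ← e2]
  induction i using Int.induction_on with
  | zero => simp
  | succ a ih => rw [step, ih]
  | pred a ih =>
    have := step (-(a : ℤ) - 1)
    rw [show -(a : ℤ) - 1 + 1 = -a by ring, ih] at this
    exact this.symm

lemma prod_swp (hL : 2 ≤ L) {ξ : ℤ → ℂ} (h : Per L ξ) (j : ℤ) (f : ℂ → ℂ)
    (hs : Per L (swp L j ξ)) :
    ∏ s ∈ Finset.range L, f (swp L j ξ s) = ∏ s ∈ Finset.range L, f (ξ s) := by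
  have e1 := prod_period (L := L) (ψ := fun x => f (swp L j ξ x)) (fun x => by
    show f (swp L j ξ (x + L)) = f (swp L j ξ x)
    rw [hs x]) j
  have e2 := prod_period (L := L) (ψ := fun x => f (ξ x)) (fun x => by
    show f (ξ (x + L)) = f (ξ x)
    rw [h x]) j
  rw [← e1, ← e2]
  obtain ⟨m, rfl⟩ : ∃ m, L = m + 2 := ⟨L - 2, by omega⟩
  rw [Finset.prod_range_succ', Finset.prod_range_succ', Finset.prod_range_succ',
    Finset.prod_range_succ']
  have c0 : swp (m + 2) j ξ (j + ((0 : ℕ) : ℤ)) = ξ (j + ((0 + 1 : ℕ) : ℤ)) := by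
    rw [swp_i ⟨0, by push_cast; ring⟩]
    congr 1
    push_cast
    ring
  have c1 : swp (m + 2) j ξ (j + ((0 + 1 : ℕ) : ℤ)) = ξ (j + ((0 : ℕ) : ℤ)) := by
    rw [swp_succ (by omega) ⟨0, by push_cast; ring⟩]
    congr 1
    push_cast
    ring
  have c2 : ∀ s ∈ Finset.range m, f (swp (m + 2) j ξ (j + ((s + 1 + 1 : ℕ) : ℤ))) =
      f (ξ (j + ((s + 1 + 1 : ℕ) : ℤ))) := by
    intro s hs
    rw [Finset.mem_range] at hs
    rw [swp_other]
    · intro h1
      have := Cg_eq h1 (by push_cast; omega) (by push_cast; omega)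
      push_cast at this
      omega
    · intro h1
      have := Cg_eq h1 (by push_cast; omega) (by push_cast; omega)
      push_cast at this
      omega
  rw [c0, c1, Finset.prod_congr rfl c2]
  ring

/-! ### Generic parameters -/

/-- generic parameters with respect to `w` -/
def gen (L : ℕ) (w : ℂ) : Set (ℤ → ℂ) :=
  {ξ | Per L ξ ∧ (∀ x y, ξ x = ξ y → Cg L x y) ∧ ∀ x, ξ x ≠ w ∧ ξ x ≠ q * w}

/-- the exchange of positions -/
noncomputable def sw (L : ℕ) (i x : ℤ) : ℤ :=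
  if Cg L x i then x + 1 else if Cg L x (i + 1) then x - 1 else x

lemma swp_eq (i : ℤ) (ξ : ℤ → ℂ) (x : ℤ) : swp L i ξ x = ξ (sw L i x) := by
  unfold swp sw
  split_ifs <;> rfl

lemma sw_Cg {i x y : ℤ} (h : Cg L x y) : sw L i y - sw L i x = y - x := by
  have e1 : Cg L x i ↔ Cg L y i :=
    ⟨fun h' => Cg.trans' (Cg.symm' h) h', fun h' => Cg.trans' h h'⟩
  have e2 : Cg L x (i + 1) ↔ Cg L y (i + 1) :=
    ⟨fun h' => Cg.trans' (Cg.symm' h) h', fun h' => Cg.trans' h h'⟩
  unfold sw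
  simp only [e1, e2]
  split_ifs <;> ring

lemma sw_sw (hL : 2 ≤ L) (i x : ℤ) : sw L i (sw L i x) = x := by
  by_cases h1 : Cg L x i
  · have e : sw L i x = x + 1 := by simp only [sw, if_pos h1]
    have h2 := Cg.add 1 h1
    have h3 : ¬ Cg L (x + 1) i := fun h => not_Cg_self_succ hL h h2
    rw [e]
    simp only [sw, if_neg h3, if_pos h2]
    ring
  by_cases h2 : Cg L x (i + 1)
  · have e : sw L i x = x - 1 := by simp only [sw, if_neg h1, if_pos h2]
    have h3 : Cg L (x - 1) i := by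
      have := Cg.sub 1 h2
      rwa [show i + 1 - 1 = i by ring] at this
    rw [e]
    simp only [sw, if_pos h3]
    ring
  · have e : sw L i x = x := by simp only [sw, if_neg h1, if_neg h2]
    rw [e, e]

lemma Per_swp {ξ : ℤ → ℂ} (h : Per L ξ) (i : ℤ) : Per L (swp L i ξ) := by
  intro x
  rw [swp_eq, swp_eq]
  have hx : Cg L x (x + L) := ⟨-1, by ring⟩
  have := sw_Cg (i := i) hx
  have e : sw L i (x + L) = sw L i x + L := by linarith
  rw [e, h]

lemma gen_swp (hL : 2 ≤ L) {w : ℂ} (i : ℤ) {ξ : ℤ → ℂ} (h : ξ ∈ gen L w) :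
    swp L i ξ ∈ gen L w := by
  obtain ⟨h1, h2, h3⟩ := h
  refine ⟨Per_swp h1 i, ?_, ?_⟩
  · intro x y hxy
    rw [swp_eq, swp_eq] at hxy
    have hc := h2 _ _ hxy
    have e := sw_Cg (i := i) hc
    rw [sw_sw hL, sw_sw hL] at e
    unfold Cg at hc ⊢
    have e2 : x - y = sw L i x - sw L i y := by linarith
    rw [e2]; exact hc
  · intro x
    rw [swp_eq]
    exact h3 _

/-- the factor of the arc recursion -/
noncomputable def gfac (L : ℕ) (w : ℂ) (ξ : ℤ → ℂ) : ℂ :=
  -q * w * (∏ s ∈ Finset.range L, (ξ s - q * w) ^ 2) / 3 ^ L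

lemma gfac_swp (hL : 2 ≤ L) {ξ : ℤ → ℂ} (h : Per L ξ) (w : ℂ) (i : ℤ) :
    gfac L w (swp L i ξ) = gfac L w ξ := by
  unfold gfac
  rw [prod_swp hL h i (fun x => (x - q * w) ^ 2) (Per_swp h i)]

lemma gfac_rot {ξ : ℤ → ℂ} (h : Per L ξ) (w : ℂ) :
    gfac L w (fun x => ξ (x - 1)) = gfac L w ξ := by
  unfold gfac
  have e1 := prod_period (L := L) (ψ := fun x => (ξ x - q * w) ^ 2) (fun x => by
    show (ξ (x + L) - q * w) ^ 2 = (ξ x - q * w) ^ 2
    rw [h x]) (-1)
  have e2 : ∏ s ∈ Finset.range L, (ξ ((s : ℤ) - 1) - q * w) ^ 2 =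
      ∏ s ∈ Finset.range L, (fun x => (ξ x - q * w) ^ 2) (-1 + (s : ℤ)) := by
    apply Finset.prod_congr rfl
    intro s _
    show (ξ ((s : ℤ) - 1) - q * w) ^ 2 = (ξ (-1 + (s : ℤ)) - q * w) ^ 2
    rw [show (s : ℤ) - 1 = -1 + s by ring]
  simp only
  rw [e2, e1]

/-- the arc recursion at generic parameters -/
lemma arc_gen (hT : Triangular) (h : PsiPre Ψ) (hL : 2 ≤ L) (w : ℂ) (P : Pat L) {ξ : ℤ → ℂ}
    (hξ : ξ ∈ gen L w) : Th Ψ 0 w P ξ = gfac L w ξ * Ψ L P ξ := by
  have hL1 : 1 ≤ L := by omega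
  have key := hT L (ℤ → ℂ) (gen L w) (fun i ξ => swp L i ξ) (fun ξ x => ξ (x - 1)) (fun ξ => ξ)
    (fun P ξ => Th Ψ 0 w P ξ - gfac L w ξ * Ψ L P ξ)
    (fun i ξ hξ => gen_swp hL i hξ)
    (by
      intro ξ hξ
      obtain ⟨h1, h2, h3⟩ := hξ
      refine ⟨fun x => ξ (x + 1), ⟨?_, ?_, fun x => h3 _⟩, ?_⟩
      · intro x
        show ξ (x + L + 1) = ξ (x + 1)
        rw [show x + (L : ℤ) + 1 = x + 1 + L by ring, h1]
      · intro x y hxy
        have := Cg.sub 1 (h2 _ _ hxy)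
        rwa [show x + 1 - 1 = x by ring, show y + 1 - 1 = y by ring] at this
      · funext x
        show ξ (x - 1 + 1) = ξ x
        rw [show x - 1 + 1 = x by ring])
    (by
      intro ξ hξ i hi
      exact not_Cg_succ hL i (hξ.2.1 _ _ hi))
    (by
      intro P ξ hξ j
      have hper := hξ.1
      have hξ' := gen_swp hL j hξ
      have e1 := Th_exch h hL hper j w P
      rw [Th_indep h hL hξ'.1 hξ'.2.2 P (j + 2), Th_indep h hL hper hξ.2.2 P (j + 2)] at e1
      have e2 : eop j (fun P' => Th Ψ (j + 2) w P' ξ) P = eop j (fun P' => Th Ψ 0 w P' ξ) P := by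
        congr 1
        funext P'
        exact Th_indep h hL hper hξ.2.2 P' (j + 2)
      rw [e2] at e1
      have e3 := h.exch L P ξ hper j
      have e4 : eop j (fun P' => Th Ψ 0 w P' ξ - gfac L w ξ * Ψ L P' ξ) P =
          eop j (fun P' => Th Ψ 0 w P' ξ) P - gfac L w ξ * eop j (fun P' => Ψ L P' ξ) P := by
        unfold eop
        rw [Finset.mul_sum, ← Finset.sum_sub_distrib]
        apply Finset.sum_congr rfl
        intro P' _
        split_ifs <;> ring
      rw [e4, gfac_swp hL hper]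
      linear_combination e1 - gfac L w ξ * e3)
    (by
      intro P ξ hξ
      have hper := hξ.1
      have hrotgen : (fun x => ξ (x - 1)) ∈ gen L w := by
        refine ⟨?_, ?_, fun x => hξ.2.2 _⟩
        · intro x
          show ξ (x + L - 1) = ξ (x - 1)
          rw [show x + (L : ℤ) - 1 = x - 1 + L by ring, hper]
        · intro x y hxy
          have := Cg.add 1 (hξ.2.1 _ _ hxy)
          rwa [show x - 1 + 1 = x by ring, show y - 1 + 1 = y by ring] at this
      have e1 := Th_rot h hL1 hper 0 w P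
      rw [Th_indep h hL hrotgen.1 hrotgen.2.2 (rot P) (0 + 1)] at e1
      rw [e1, gfac_rot hper, h.rot L P ξ hper])
    (by
      intro P hP ξ hξ
      have := Th_base h hξ.1 w P hP
      rw [this]
      unfold gfac
      ring)
    P ξ hξ
  exact sub_eq_zero.1 key

/-- the direction of perturbation -/
noncomputable def cdir (L : ℕ) (x : ℤ) : ℂ := ((x % (L : ℤ) : ℤ) : ℂ) + 1

lemma cdir_Per : Per L (cdir L) := by
  intro x
  unfold cdir
  rw [Int.add_emod_right]

lemma cdir_ne (hL : 1 ≤ L) (x : ℤ) : cdir L x ≠ 0 := by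
  unfold cdir
  have h := Int.emod_nonneg x (show (L : ℤ) ≠ 0 by omega)
  intro h0
  have h1 : ((x % (L : ℤ) + 1 : ℤ) : ℂ) = 0 := by push_cast; exact h0
  have h2 : x % (L : ℤ) + 1 = 0 := by exact_mod_cast h1
  omega

lemma cdir_inj {x y : ℤ} (h : cdir L x = cdir L y) : Cg L x y := by
  unfold cdir at h
  have h1 : ((x % (L : ℤ) : ℤ) : ℂ) = ((y % (L : ℤ) : ℤ) : ℂ) := by linear_combination h
  have h2 : x % (L : ℤ) = y % (L : ℤ) := by exact_mod_cast h1
  exact Int.ModEq.dvd (show y ≡ x [ZMOD (L : ℤ)] from h2.symm)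

/-- the curve of parameters through `ξ` is generic off a finite set -/
lemma curve_gen (hL : 1 ≤ L) {ξ : ℤ → ℂ} (h : Per L ξ) (w : ℂ) : ∃ B : Set ℂ, B.Finite ∧
    ∀ t : ℂ, t ∉ B → (fun x => ξ x + t * cdir L x) ∈ gen L w := by
  classical
  refine ⟨((fun p : ℕ × ℕ => (ξ p.1 - ξ p.2) / (cdir L p.2 - cdir L p.1)) ''
      ((Finset.range L ×ˢ Finset.range L : Finset (ℕ × ℕ)) : Set (ℕ × ℕ))) ∪
    ((fun n : ℕ => (w - ξ n) / cdir L n) '' ((Finset.range L : Finset ℕ) : Set ℕ)) ∪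
    ((fun n : ℕ => (q * w - ξ n) / cdir L n) '' ((Finset.range L : Finset ℕ) : Set ℕ)),
    ((Finset.finite_toSet _).image _ |>.union ((Finset.finite_toSet _).image _)).union
      ((Finset.finite_toSet _).image _), ?_⟩
  intro t ht
  simp only [Set.mem_union, not_or] at ht
  obtain ⟨⟨ht1, ht2⟩, ht3⟩ := ht
  have hper : Per L (fun x => ξ x + t * cdir L x) := by
    intro x
    show ξ (x + L) + t * cdir L (x + L) = ξ x + t * cdir L x
    rw [h, cdir_Per]
  -- reduction to one period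
  have red : ∀ x : ℤ, ∃ n : ℕ, n < L ∧ Cg L x n := by
    intro x
    refine ⟨(x % (L : ℤ)).toNat, ?_, ?_⟩
    · have h1 := Int.emod_lt_of_pos x (show (0 : ℤ) < L by omega)
      have h2 := Int.emod_nonneg x (show (L : ℤ) ≠ 0 by omega)
      omega
    · have h2 := Int.emod_nonneg x (show (L : ℤ) ≠ 0 by omega)
      rw [Int.toNat_of_nonneg h2]
      exact ⟨x / L, by have := Int.emod_add_mul_ediv x L; linarith⟩
  refine ⟨hper, ?_, ?_⟩
  · intro x y hxy
    obtain ⟨n, hn, hxn⟩ := red x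
    obtain ⟨m, hm, hym⟩ := red y
    have e1 := Per_Cg hper hxn
    have e2 := Per_Cg hper hym
    by_cases hnm : Cg L (n : ℤ) m
    · exact Cg.trans' hxn (Cg.trans' hnm (Cg.symm' hym))
    · exfalso
      apply ht1
      refine ⟨(n, m), by simp [hn, hm], ?_⟩
      have hne : cdir L m - cdir L n ≠ 0 := by
        intro h0
        exact hnm (Cg.symm' (cdir_inj (sub_eq_zero.1 h0)))
      have e3 : ξ n + t * cdir L n = ξ m + t * cdir L m := by
        rw [← e1, ← e2]; exact hxy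
      show (ξ n - ξ m) / (cdir L m - cdir L n) = t
      rw [div_eq_iff hne]
      linear_combination e3
  · intro x
    obtain ⟨n, hn, hxn⟩ := red x
    have e1 := Per_Cg hper hxn
    show ξ x + t * cdir L x ≠ w ∧ ξ x + t * cdir L x ≠ q * w
    rw [e1]
    constructor
    · intro h0
      apply ht2
      refine ⟨n, by simp [hn], ?_⟩
      show (w - ξ n) / cdir L n = t
      rw [div_eq_iff (cdir_ne hL _)]
      linear_combination -h0
    · intro h0
      apply ht3
      refine ⟨n, by simp [hn], ?_⟩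
      show (q * w - ξ n) / cdir L n = t
      rw [div_eq_iff (cdir_ne hL _)]
      linear_combination -h0

/-- the arc recursion for the inserted parameters -/
lemma arc_insp (hT : Triangular) (h : PsiPre Ψ) (i : ℤ) (w : ℂ) (P : Pat L) {ξ : ℤ → ℂ}
    (hper : Per L ξ) : Th Ψ i w P ξ = gfac L w ξ * Ψ L P ξ := by
  have hL := P.two_le
  have hL1 : 1 ≤ L := by omega
  obtain ⟨B, hB, hgen⟩ := curve_gen hL1 hper w
  have hγ : ∀ x : ℤ, Continuous fun t : ℂ => ξ x + t * cdir L x := by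
    intro x; fun_prop
  have c1 : Continuous fun t : ℂ => Th Ψ i w P (fun x => ξ x + t * cdir L x) := by
    unfold Th
    apply Psi_continuous h (ins i P) (fun t => insp L i w (fun x => ξ x + t * cdir L x))
    intro x
    simp only [insp]
    split_ifs
    · exact continuous_const
    · exact continuous_const
    · exact hγ _
  have c2 : Continuous fun t : ℂ => gfac L w (fun x => ξ x + t * cdir L x) *
      Ψ L P (fun x => ξ x + t * cdir L x) := by
    apply Continuous.mul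
    · unfold gfac
      apply Continuous.div_const
      apply Continuous.mul continuous_const
      apply continuous_finsetProd
      intro s _
      fun_prop
    · exact Psi_continuous h P (fun t => fun x => ξ x + t * cdir L x) hγ
  have hdense : Dense (Set.univ \ B) := dense_univ.sdiff_finite hB
  have heq : (fun t : ℂ => Th Ψ i w P (fun x => ξ x + t * cdir L x)) =
      fun t : ℂ => gfac L w (fun x => ξ x + t * cdir L x) *
        Ψ L P (fun x => ξ x + t * cdir L x) := by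
    apply Continuous.ext_on hdense c1 c2
    intro t ht
    have hg := hgen t ht.2
    simp only
    rw [Th_indep h hL hg.1 hg.2.2 P i, arc_gen hT h hL w P hg]
  have h0 := congrFun heq 0
  simpa using h0

theorem arc_of (hT : Triangular) (h : PsiPre Ψ) : ∀ (L : ℕ) (P : Pat L) (ζ : ℤ → ℂ),
    Per (L + 2) ζ → ∀ i : ℤ, ζ i = q ^ 2 * ζ (i + 1) →
    Ψ (L + 2) (ins i P) ζ =
      (-q * ζ (i + 1) * (∏ s ∈ Finset.range L, (ζ (i + 2 + s) - q * ζ (i + 1)) ^ 2) / 3 ^ L) *
        Ψ L P (fun x => ζ (phi L i x)) := by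
  intro L P ζ hζ i hi
  have hL := P.two_le
  have hL1 : 1 ≤ L := by omega
  have hper := phi_Per hL1 hζ i
  have key := arc_insp hT h i (ζ (i + 1)) P hper
  unfold Th at key
  rw [← eq_insp hL1 hζ i hi] at key
  rw [key]
  congr 1
  unfold gfac
  congr 2
  have e := prod_period (L := L) (ψ := fun x => (ζ (phi L i x) - q * ζ (i + 1)) ^ 2) (fun x => by
    show (ζ (phi L i (x + L)) - q * ζ (i + 1)) ^ 2 = (ζ (phi L i x) - q * ζ (i + 1)) ^ 2
    have := hper x
    simp only at this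
    rw [this]) i
  rw [← e]
  apply Finset.prod_congr rfl
  intro s hs
  rw [Finset.mem_range] at hs
  have e2 := phi_form hL1 i 0 s (by omega) (by omega)
  rw [show i + (s : ℤ) + L * 0 = i + s by ring] at e2
  show (ζ (phi L i (i + s)) - q * ζ (i + 1)) ^ 2 = _
  rw [e2, show i + (s : ℤ) + 2 + (L + 2) * 0 = i + 2 + s by ring]

end Pool.Agent.H14.EX
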