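import Pool.Agent.H14.EX.Arc

/-! Cap identity of the polynomial qKZ solution (EXACT project, (A4)):
at `ζ (i+1) = q² ζ i` the operator `e_i` exchanges the two parameters, and capping the strands
`i, i+1` gives a multiple of the solution of size `L`. -/

namespace Pool.Agent.H14.EX

open H56.EX

variable {L : ℕ} {Ψ : ∀ L : ℕ, Pat L → (ℤ → ℂ) → ℂ}

lemma q_sq_ne_one : (q : ℂ) ^ 2 ≠ 1 := by
  intro h
  have h1 := q_sq
  rw [h] at h1
  have h2 : q = -2 := by linear_combination h1
  rw [h2] at h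
  norm_num at h

/-- `e_i Ψ(ζ) = Ψ(s_i ζ)` at `ζ (i+1) = q² ζ i` (any `ζ i`, also zero) -/
theorem eop_cap (hΨ : PsiProps Ψ) {N : ℕ} {ζ : ℤ → ℂ} (hper : Per N ζ) {i : ℤ}
    (hi : ζ (i + 1) = q ^ 2 * ζ i) (P : Pat N) :
    eop i (fun P' => Ψ N P' ζ) P = Ψ N P (swp N i ζ) := by
  by_cases h0 : ζ i = 0
  · -- both parameters vanish
    have h1 : ζ (i + 1) = 0 := by rw [hi, h0, mul_zero]
    have hs : swp N i ζ = ζ := by
      funext x
      unfold swp
      split_ifs with c1 c2
      · rw [Per_Cg hper c1, h0, Per_Cg hper (Cg.add 1 c1), h1]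
      · have c3 : Cg N (x - 1) i := by
          have := Cg.sub 1 c2
          rwa [show i + 1 - 1 = i by ring] at this
        rw [Per_Cg hper c2, h1, Per_Cg hper c3, h0]
      · rfl
    rw [hs]
    have hz := hΨ.arc_zero N
    have hi' : ζ i = q ^ 2 * ζ (i + 1) := by rw [h0, h1, mul_zero]
    unfold eop
    have e : ∀ P' : Pat N, (if E i P' = P then Ψ N P' ζ else 0) =
        (if P' = P then Ψ N P' ζ else 0) := by
      intro P'
      by_cases hP : P'.m i = i + 1
      · rw [E.eq_self P' i hP]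
      · rw [hz P' ζ hper i hi' hP]
        simp
    simp only [e, Finset.sum_ite_eq', Finset.mem_univ, if_true]
  · have hex := hΨ.exch N P ζ hper i
    rw [hi, q_inv] at hex
    have h3 := q_cube
    have h4 : q ^ 4 = q := by rw [show q ^ 4 = q ^ 3 * q by ring, h3, one_mul]
    have e1 : (q * ζ i - q ^ 2 * (q ^ 2 * ζ i)) = 0 := by linear_combination (-ζ i) * h4
    have e2 : (q * (q ^ 2 * ζ i) - q ^ 2 * ζ i) = (ζ i - q ^ 2 * ζ i) := by
      linear_combination (ζ i) * h3
    rw [e1, e2, zero_mul, zero_add] at hex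
    have h5 : ζ i - q ^ 2 * ζ i ≠ 0 := by
      intro h
      have : (1 - q ^ 2) * ζ i = 0 := by linear_combination h
      rcases mul_eq_zero.1 this with h6 | h6
      · exact q_sq_ne_one (by linear_combination -h6)
      · exact h0 h6
    exact (mul_left_cancel₀ h5 hex).symm

/-- the factor of the cap identity -/
noncomputable def capFac (L : ℕ) (i : ℤ) (ζ : ℤ → ℂ) : ℂ :=
  -q * ζ i * (∏ s ∈ Finset.range L, (ζ (i + 2 + s) - q * ζ i) ^ 2) / 3 ^ L

/-- **Cap identity**: at `ζ (i+1) = q² ζ i`, capping the strands `i`, `i+1` gives `Ψ L`. -/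
theorem cap_sum (hΨ : PsiProps Ψ) {ζ : ℤ → ℂ} (hper : Per (L + 2) ζ) {i : ℤ}
    (hi : ζ (i + 1) = q ^ 2 * ζ i) (Q : Pat L) :
    (∑ P : Pat (L + 2), if E i P = ins i Q then Ψ (L + 2) P ζ else 0) =
      capFac L i ζ * Ψ L Q (fun x => ζ (phi L i x)) := by
  have hL2 : 2 ≤ L := Q.two_le
  have h1 := eop_cap hΨ hper hi (ins i Q)
  have h2 : (∑ P : Pat (L + 2), if E i P = ins i Q then Ψ (L + 2) P ζ else 0) =
      eop i (fun P' => Ψ (L + 2) P' ζ) (ins i Q) := rfl
  rw [h2, h1]
  have s0 : swp (L + 2) i ζ i = ζ (i + 1) := swp_i (Cg.refl' i)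
  have s1 : swp (L + 2) i ζ (i + 1) = ζ i := by
    rw [swp_succ (by omega) (Cg.refl' _), show i + 1 - 1 = i by ring]
  have hper' : Per (L + 2) (swp (L + 2) i ζ) := Per_swp hper i
  have h3 := hΨ.arc L Q (swp (L + 2) i ζ) hper' i (by rw [s0, s1, hi])
  rw [h3, s1]
  have h4 : ∀ s ∈ Finset.range L, (swp (L + 2) i ζ (i + 2 + s) - q * ζ i) ^ 2 =
      (ζ (i + 2 + s) - q * ζ i) ^ 2 := by
    intro s hs
    rw [Finset.mem_range] at hs
    rw [swp_other]
    · intro h
      have := Cg_eq (x := i + 2 + s) (y := i + (L + 2)) (N := L + 2)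
        (Cg.trans' h (by unfold Cg; push_cast; exact ⟨-1, by ring⟩)) (by push_cast; omega)
        (by push_cast; omega)
      omega
    · intro h
      have := Cg_eq (x := i + 2 + s) (y := i + 1) (N := L + 2) h (by push_cast; omega)
        (by push_cast; omega)
      omega
  rw [Finset.prod_congr rfl h4]
  have h5 : (fun x => swp (L + 2) i ζ (phi L i x)) = fun x => ζ (phi L i x) := by
    funext x
    have := phi_not (by omega : 1 ≤ L) i x
    exact swp_other this.1 this.2
  rw [h5]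
  rfl

/-- Cap identity for a push-forward along any map `c` which realises the cap. -/
theorem cap_pf (hΨ : PsiProps Ψ) {ζ : ℤ → ℂ} (hper : Per (L + 2) ζ) {i : ℤ}
    (hi : ζ (i + 1) = q ^ 2 * ζ i) (c : Pat (L + 2) → Pat L) (hc : ∀ P, E i P = ins i (c P))
    (Q : Pat L) :
    pf c (fun P => Ψ (L + 2) P ζ) Q = capFac L i ζ * Ψ L Q (fun x => ζ (phi L i x)) := by
  rw [← cap_sum hΨ hper hi Q]
  unfold pf
  apply Finset.sum_congr rfl
  intro P _
  have : (c P = Q) ↔ (E i P = ins i Q) := by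
    rw [hc P]
    exact ⟨fun h => by rw [h], fun h => ins_injective i h⟩
  by_cases h : c P = Q
  · rw [if_pos h, if_pos (this.1 h)]
  · rw [if_neg h, if_neg (fun h' => h (this.2 h'))]

end Pool.Agent.H14.EX
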