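import Pool.Agent.H56.EX.Defs

/-! Topology lemma LT4 of the EXACT project: a small arc between the last glued strand
(position `-1`) and the first hole end (position `0`) of the top pattern. -/

namespace H56.EX

variable {Lt Lb : ℕ}

lemma LT4_conn_map {kt kb M kt' kb' M' Lt Lb Lt' Lb' : ℕ} {Pt : Pat Lt} {Pb : Pat Lb}
    {Pt' : Pat Lt'} {Pb' : Pat Lb'} (f : ℤ ⊕ ℤ → ℤ ⊕ ℤ)
    (h : ∀ p r, Step kt kb M Pt Pb p r → Conn kt' kb' M' Pt' Pb' (f p) (f r)) {p r : ℤ ⊕ ℤ}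
    (hc : Conn kt kb M Pt Pb p r) : Conn kt' kb' M' Pt' Pb' (f p) (f r) := by
  unfold Conn at hc ⊢
  induction hc with
  | rel _ _ h1 => exact h _ _ h1
  | refl _ => exact Relation.EqvGen.refl _
  | symm _ _ _ ih => exact Relation.EqvGen.symm _ _ ih
  | trans _ _ _ _ _ ih1 ih2 => exact Relation.EqvGen.trans _ _ _ ih1 ih2

/-- new positions to old positions -/
def LT4_down (Lt : ℕ) : ℤ ⊕ ℤ → ℤ ⊕ ℤ
  | Sum.inl x => Sum.inl (phi Lt (-1) (x - 1))
  | Sum.inr y => Sum.inr (y - 1)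

/-- old positions to new positions -/
def LT4_up (Lt Lb : ℕ) : ℤ ⊕ ℤ → ℤ ⊕ ℤ
  | Sum.inl x => if Cg (Lt + 2) x (-1) ∨ Cg (Lt + 2) x (-1 + 1) then
      Sum.inr (Lb * ((x + 1) / ((Lt : ℤ) + 2))) else Sum.inl (psi Lt (-1) x + 1)
  | Sum.inr y => Sum.inr (y + 1)

lemma LT4_up_phi (hL : 1 ≤ Lt) (y : ℤ) :
    LT4_up Lt Lb (Sum.inl (phi Lt (-1) y)) = Sum.inl (y + 1) := by
  have h := phi_not hL (-1) y
  have h2 : ¬ (Cg (Lt + 2) (phi Lt (-1) y) (-1) ∨ Cg (Lt + 2) (phi Lt (-1) y) (-1 + 1)) := by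
    rintro (h3 | h3)
    · exact h.1 h3
    · exact h.2 h3
  simp only [LT4_up, if_neg h2, psi_phi hL]

lemma LT4_up_neg (a : ℤ) :
    LT4_up Lt Lb (Sum.inl (-1 + ((Lt + 2 : ℕ) : ℤ) * a)) = Sum.inr (Lb * a) := by
  have h : Cg (Lt + 2) (-1 + ((Lt + 2 : ℕ) : ℤ) * a) (-1) := by
    unfold Cg
    exact ⟨a, by ring⟩
  simp only [LT4_up, if_pos (Or.inl h : Cg (Lt + 2) (-1 + ((Lt + 2 : ℕ) : ℤ) * a) (-1) ∨ _)]
  congr 2
  push_cast
  rw [show -1 + ((Lt : ℤ) + 2) * a + 1 = ((Lt : ℤ) + 2) * a by ring]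
  exact Int.mul_ediv_cancel_left _ (by omega)

lemma LT4_up_zero (a : ℤ) :
    LT4_up Lt Lb (Sum.inl (((Lt + 2 : ℕ) : ℤ) * a)) = Sum.inr (Lb * a) := by
  have h : Cg (Lt + 2) (((Lt + 2 : ℕ) : ℤ) * a) (-1 + 1) := by
    unfold Cg
    exact ⟨a, by ring⟩
  simp only [LT4_up, if_pos (Or.inr h : _ ∨ Cg (Lt + 2) (((Lt + 2 : ℕ) : ℤ) * a) (-1 + 1))]
  congr 2
  push_cast
  rw [show ((Lt : ℤ) + 2) * a + 1 = 1 + a * ((Lt : ℤ) + 2) by ring,
    Int.add_mul_ediv_right _ _ (by omega), Int.ediv_eq_zero_of_lt (by norm_num) (by omega)]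
  ring

/-- new glue positions are images of old ones -/
lemma LT4_phi_glue (s : ℕ) (hs : s < Lt) (a : ℤ) :
    phi Lt (-1) ((s : ℤ) + Lt * a - 1) = s + 1 + ((Lt + 2 : ℕ) : ℤ) * a := by
  have h := phi_form (L := Lt) (by omega) (-1) a s (by omega) (by exact_mod_cast hs)
  have e : -1 + (s : ℤ) + Lt * a = (s : ℤ) + Lt * a - 1 := by ring
  rw [e] at h
  rw [h]
  push_cast
  ring

section

variable (kt kb M : ℕ) (hLt : Lt = kt + M) (hLb : Lb = kb + 1 + M) (Pt : Pat Lt) (Pb : Pat Lb)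

include hLt in
lemma LT4_down_step (p r : ℤ ⊕ ℤ) (h : Step kt (kb + 1) M (rot Pt) (rot Pb) p r) :
    Conn (kt + 1) kb (M + 1) (ins (-1) Pt) Pb (LT4_down Lt p) (LT4_down Lt r) := by
  unfold Conn
  cases h with
  | top x =>
    have h := Step.top (kt := kt + 1) (kb := kb) (M := M + 1) (Pt := ins (-1) Pt) (Pb := Pb)
      (phi Lt (-1) (x - 1))
    rw [ins_phi] at h
    have e : LT4_down Lt (Sum.inl ((rot Pt).m x)) = Sum.inl (phi Lt (-1) (Pt.m (x - 1))) := by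
      simp [LT4_down]
    rw [e]
    exact Relation.EqvGen.rel _ _ h
  | bot y =>
    have h := Step.bot (kt := kt + 1) (kb := kb) (M := M + 1) (Pt := ins (-1) Pt) (Pb := Pb)
      (y - 1)
    have e : LT4_down Lt (Sum.inr ((rot Pb).m y)) = Sum.inr (Pb.m (y - 1)) := by
      simp [LT4_down]
    rw [e]
    exact Relation.EqvGen.rel _ _ h
  | glue a j hj =>
    have h := Step.glue (kt := kt + 1) (kb := kb) (M := M + 1) (Pt := ins (-1) Pt) (Pb := Pb)
      a j (by omega)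
    have e1 : LT4_down Lt (Sum.inl ((kt : ℤ) + j + Lt * a)) =
        Sum.inl (((kt + 1 : ℕ) : ℤ) + j + ((Lt + 2 : ℕ) : ℤ) * a) := by
      have := LT4_phi_glue (Lt := Lt) (kt + j) (by omega) a
      simp only [LT4_down]
      congr 1
      push_cast at this ⊢
      rw [this]
      ring
    have e2 : LT4_down Lt (Sum.inr (((kb + 1 : ℕ) : ℤ) + j + Lb * a)) =
        Sum.inr ((kb : ℤ) + j + Lb * a) := by
      simp only [LT4_down]
      congr 1
      push_cast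
      ring
    rw [e1, e2]
    exact Relation.EqvGen.rel _ _ h

include hLt hLb in
lemma LT4_up_step (p r : ℤ ⊕ ℤ) (h : Step (kt + 1) kb (M + 1) (ins (-1) Pt) Pb p r) :
    Conn kt (kb + 1) M (rot Pt) (rot Pb) (LT4_up Lt Lb p) (LT4_up Lt Lb r) := by
  have hL : 1 ≤ Lt := le_trans (by norm_num) Pt.two_le
  unfold Conn
  cases h with
  | top x =>
    rcases pos_cases hL (-1) x with h | h | ⟨y, rfl⟩
    · -- `x = -1 + (Lt+2) a`
      rw [ins_i _ _ h]
      obtain ⟨a, ha⟩ := h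
      have e : x = -1 + ((Lt + 2 : ℕ) : ℤ) * a := by linarith
      have e2 : x + 1 = ((Lt + 2 : ℕ) : ℤ) * a := by linarith
      rw [e2, LT4_up_zero, e, LT4_up_neg]
      exact Relation.EqvGen.refl _
    · rw [ins_succ _ _ h]
      obtain ⟨a, ha⟩ := h
      have e : x = ((Lt + 2 : ℕ) : ℤ) * a := by linarith
      have e2 : x - 1 = -1 + ((Lt + 2 : ℕ) : ℤ) * a := by linarith
      rw [e2, LT4_up_neg, e, LT4_up_zero]
      exact Relation.EqvGen.refl _
    · rw [ins_phi, LT4_up_phi hL, LT4_up_phi hL]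
      have h := Step.top (kt := kt) (kb := kb + 1) (M := M) (Pt := rot Pt) (Pb := rot Pb) (y + 1)
      rw [rot_m, show y + 1 - 1 = y by ring] at h
      exact Relation.EqvGen.rel _ _ h
  | bot y =>
    have h := Step.bot (kt := kt) (kb := kb + 1) (M := M) (Pt := rot Pt) (Pb := rot Pb) (y + 1)
    rw [rot_m, show y + 1 - 1 = y by ring] at h
    exact Relation.EqvGen.rel _ _ h
  | glue a j hj =>
    rcases Nat.lt_or_ge j M with hjM | hjM
    · have h := Step.glue (kt := kt) (kb := kb + 1) (M := M) (Pt := rot Pt) (Pb := rot Pb) a j hjM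
      have e1 : ((kt + 1 : ℕ) : ℤ) + j + ((Lt + 2 : ℕ) : ℤ) * a =
          phi Lt (-1) ((kt : ℤ) + j + Lt * a - 1) := by
        have := LT4_phi_glue (Lt := Lt) (kt + j) (by omega) a
        push_cast at this ⊢
        rw [this]
        ring
      rw [e1, LT4_up_phi hL, show (kt : ℤ) + j + Lt * a - 1 + 1 = kt + j + Lt * a by ring]
      have e2 : LT4_up Lt Lb (Sum.inr ((kb : ℤ) + j + Lb * a)) =
          Sum.inr (((kb + 1 : ℕ) : ℤ) + j + Lb * a) := by
        simp only [LT4_up]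
        congr 1
        push_cast
        ring
      rw [e2]
      exact Relation.EqvGen.rel _ _ h
    · have hjM' : j = M := by omega
      subst hjM'
      have e1 : ((kt + 1 : ℕ) : ℤ) + j + ((Lt + 2 : ℕ) : ℤ) * a =
          -1 + ((Lt + 2 : ℕ) : ℤ) * (a + 1) := by
        rw [hLt]; push_cast; ring
      rw [e1, LT4_up_neg]
      have e2 : LT4_up Lt Lb (Sum.inr ((kb : ℤ) + j + Lb * a)) = Sum.inr (Lb * (a + 1)) := by
        simp only [LT4_up]
        congr 1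
        rw [hLb]; push_cast; ring
      rw [e2]
      exact Relation.EqvGen.refl _

/-- correspondence of the hole ends -/
def LT4_sig : Fin (kt + 1) ⊕ Fin kb → Fin kt ⊕ Fin (kb + 1)
  | Sum.inl s => Fin.cases (Sum.inr 0) (fun s' => Sum.inl s') s
  | Sum.inr s => Sum.inr s.succ

/-- inverse correspondence of the hole ends -/
def LT4_tau : Fin kt ⊕ Fin (kb + 1) → Fin (kt + 1) ⊕ Fin kb
  | Sum.inl s => Sum.inl s.succ
  | Sum.inr s => Fin.cases (Sum.inl 0) (fun s' => Sum.inr s') s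

lemma LT4_tau_sig (u : Fin (kt + 1) ⊕ Fin kb) : LT4_tau kt kb (LT4_sig kt kb u) = u := by
  rcases u with s | s
  · refine Fin.cases ?_ (fun s' => ?_) s
    · simp [LT4_sig, LT4_tau]
    · simp [LT4_sig, LT4_tau]
  · simp [LT4_sig, LT4_tau]

lemma LT4_sig_tau (u : Fin kt ⊕ Fin (kb + 1)) : LT4_sig kt kb (LT4_tau kt kb u) = u := by
  rcases u with s | s
  · simp [LT4_sig, LT4_tau]
  · refine Fin.cases ?_ (fun s' => ?_) s
    · simp [LT4_sig, LT4_tau]
    · simp [LT4_sig, LT4_tau]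

include hLt Pt in
lemma LT4_up_hpos (u : Fin (kt + 1) ⊕ Fin kb) (a : ℤ) :
    LT4_up Lt Lb (hpos (Lt + 2) Lb (kt + 1) kb u a) = hpos Lt Lb kt (kb + 1) (LT4_sig kt kb u) a := by
  have hL : 1 ≤ Lt := le_trans (by norm_num) Pt.two_le
  rcases u with s | s
  · refine Fin.cases ?_ (fun s' => ?_) s
    · have h := LT4_up_zero (Lt := Lt) (Lb := Lb) a
      simp only [LT4_sig, hpos, Fin.cases_zero, Fin.val_zero, Nat.cast_zero, zero_add]
      exact h
    · have hs' := s'.2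
      have e1 := LT4_phi_glue (Lt := Lt) (s' : ℕ) (by omega) a
      simp only [LT4_sig, hpos, Fin.cases_succ, Fin.val_succ]
      have e2 : (((s' : ℕ) + 1 : ℕ) : ℤ) + ((Lt + 2 : ℕ) : ℤ) * a =
          phi Lt (-1) (((s' : ℕ) : ℤ) + Lt * a - 1) := by
        rw [e1]; push_cast; ring
      rw [e2, LT4_up_phi hL]
      congr 1
      ring
  · simp only [LT4_sig, hpos, LT4_up, Fin.val_succ]
    congr 1
    push_cast
    ring

include hLt hLb Pt in
lemma LT4_down_hpos (u : Fin kt ⊕ Fin (kb + 1)) (a : ℤ) :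
    Conn (kt + 1) kb (M + 1) (ins (-1) Pt) Pb (LT4_down Lt (hpos Lt Lb kt (kb + 1) u a))
      (hpos (Lt + 2) Lb (kt + 1) kb (LT4_tau kt kb u) a) := by
  have hL : 1 ≤ Lt := le_trans (by norm_num) Pt.two_le
  unfold Conn
  rcases u with s | s
  · have hs := s.2
    have e1 := LT4_phi_glue (Lt := Lt) (s : ℕ) (by omega) a
    simp only [LT4_tau, hpos, LT4_down, Fin.val_succ]
    rw [e1]
    have e2 : (((s : ℕ) : ℤ) + 1 + ((Lt + 2 : ℕ) : ℤ) * a) =
        (((s : ℕ) + 1 : ℕ) : ℤ) + ((Lt + 2 : ℕ) : ℤ) * a := by push_cast; ring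
    rw [e2]
    exact Relation.EqvGen.refl _
  · refine Fin.cases ?_ (fun s' => ?_) s
    · -- bottom `-1 + Lb a`, top `-1 + (Lt+2) a`, top `(Lt+2) a`
      simp only [LT4_tau, hpos, LT4_down, Fin.cases_zero, Fin.val_zero, Nat.cast_zero, zero_add]
      have h1 := Step.glue (kt := kt + 1) (kb := kb) (M := M + 1) (Pt := ins (-1) Pt) (Pb := Pb)
        (a - 1) M (by omega)
      have h2 := Step.top (kt := kt + 1) (kb := kb) (M := M + 1) (Pt := ins (-1) Pt) (Pb := Pb)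
        (-1 + ((Lt + 2 : ℕ) : ℤ) * a)
      have hc : Cg (Lt + 2) (-1 + ((Lt + 2 : ℕ) : ℤ) * a) (-1) := ⟨a, by ring⟩
      rw [ins_i _ _ hc, show -1 + ((Lt + 2 : ℕ) : ℤ) * a + 1 = ((Lt + 2 : ℕ) : ℤ) * a by ring] at h2
      have e1 : ((kt + 1 : ℕ) : ℤ) + (M : ℕ) + ((Lt + 2 : ℕ) : ℤ) * (a - 1) =
          -1 + ((Lt + 2 : ℕ) : ℤ) * a := by rw [hLt]; push_cast; ring
      have e2 : (kb : ℤ) + (M : ℕ) + Lb * (a - 1) = Lb * a - 1 := by rw [hLb]; push_cast; ring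
      rw [e1, e2] at h1
      exact Relation.EqvGen.trans _ _ _ (Relation.EqvGen.symm _ _ (Relation.EqvGen.rel _ _ h1))
        (Relation.EqvGen.rel _ _ h2)
    · simp only [LT4_tau, hpos, LT4_down, Fin.cases_succ, Fin.val_succ]
      have e : (((s' : ℕ) + 1 : ℕ) : ℤ) + (Lb : ℤ) * a - 1 = ((s' : ℕ) : ℤ) + Lb * a := by
        push_cast; ring
      rw [e]
      exact Relation.EqvGen.refl _

end

/-- LT4: small arc between the last glued strand (position -1) and the first hole end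
(position 0) of the top. -/
theorem leg_ins_left (kt kb M : ℕ) (hLt : Lt = kt + M) (hLb : Lb = kb + 1 + M)
    (Pt : Pat Lt) (Pb : Pat Lb) :
    Leg (kt + 1) kb (M + 1) (ins (-1) Pt) Pb ↔ Leg kt (kb + 1) M (rot Pt) (rot Pb) := by
  constructor
  · intro h u v a b hc
    have h1 := LT4_conn_map (LT4_down Lt) (LT4_down_step kt kb M hLt Pt Pb) hc
    have h2 := LT4_down_hpos kt kb M hLt hLb Pt Pb u a
    have h3 := LT4_down_hpos kt kb M hLt hLb Pt Pb v b
    have h4 := h _ _ a b (Relation.EqvGen.trans _ _ _ (Relation.EqvGen.symm _ _ h2)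
      (Relation.EqvGen.trans _ _ _ h1 h3))
    rcases h4 with ⟨h5, h6⟩ | h5
    · left
      refine ⟨?_, h6⟩
      rw [← LT4_sig_tau kt kb u, ← LT4_sig_tau kt kb v, h5]
    · exact Or.inr h5
  · intro h u v a b hc
    have h1 := LT4_conn_map (LT4_up Lt Lb) (LT4_up_step kt kb M hLt hLb Pt Pb) hc
    rw [LT4_up_hpos kt kb M hLt Pt, LT4_up_hpos kt kb M hLt Pt] at h1
    rcases h _ _ a b h1 with ⟨h5, h6⟩ | h5
    · left
      refine ⟨?_, h6⟩
      rw [← LT4_tau_sig kt kb u, ← LT4_tau_sig kt kb v, h5]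
    · exact Or.inr h5

end H56.EX
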