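import Pool.Agent.H56.EX.Defs

/-! Topological lemmas on insertions of small arcs (EXACT project). -/

namespace Pool.Agent.H14.EX

open H56.EX

variable {L : ℕ}

lemma Cg_def {x y : ℤ} : Cg L x y ↔ ∃ a : ℤ, x = y + L * a := by
  constructor
  · rintro ⟨a, ha⟩; exact ⟨a, by linarith⟩
  · rintro ⟨a, ha⟩; exact ⟨a, by rw [ha]; ring⟩

/-- congruent numbers at distance less than the modulus are equal -/
lemma Cg_eq {N : ℕ} {x y : ℤ} (h : Cg N x y) (h1 : x - y < N) (h2 : y - x < N) : x = y := by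
  rcases dvd_cases h with h | h | h <;> omega

lemma phi_succ_of_not (hL : 1 ≤ L) {i y : ℤ} (h : ¬ Cg L y i) : phi L (i + 1) y = phi L i y := by
  obtain ⟨a, s, h0, h1, rfl⟩ := exists_form (N := (L : ℤ)) (by omega) i y
  have hs : s ≠ 0 := by
    rintro rfl
    exact h ⟨a, by ring⟩
  rw [phi_form hL i a s h0 h1]
  have := phi_form hL (i + 1) a (s - 1) (by omega) (by omega)
  rw [show i + 1 + (s - 1) + (L : ℤ) * a = i + s + L * a by ring] at this
  rw [this]
  ring

lemma phi_succ_of (hL : 1 ≤ L) {i y : ℤ} (h : Cg L y i) : phi L (i + 1) y = phi L i y - 2 := by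
  obtain ⟨a, rfl⟩ := Cg_def.1 h
  have e1 := phi_form hL i a 0 le_rfl (by omega)
  have e2 := phi_form hL (i + 1) (a - 1) (L - 1) (by omega) (by omega)
  rw [show i + 0 + (L : ℤ) * a = i + L * a by ring] at e1
  rw [show i + 1 + ((L : ℤ) - 1) + L * (a - 1) = i + L * a by ring] at e2
  rw [e1, e2]
  ring

lemma phi_shift (i y : ℤ) : phi L (i + 1) (y + 1) = phi L i y + 1 := by
  unfold phi
  rw [show y + 1 - (i + 1) = y - i by ring]
  ring

/-- the position `phi L i y` for `y ≡ i` is `≡ i + 2` -/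
lemma phi_Cg (hL : 1 ≤ L) {i y : ℤ} (h : Cg L y i) : Cg (L + 2) (phi L i y) (i + 2) := by
  obtain ⟨a, rfl⟩ := Cg_def.1 h
  have e1 := phi_form hL i a 0 le_rfl (by omega)
  rw [show i + 0 + (L : ℤ) * a = i + L * a by ring] at e1
  rw [e1]
  exact ⟨a, by push_cast; ring⟩

/-- `e_{i+1}` moves a small arc at `i` to `i+1`. -/
lemma E_succ_ins (i : ℤ) (P : Pat L) : E (i + 1) (ins i P) = ins (i + 1) P := by
  have hL2 := P.two_le
  have hL : 1 ≤ L := le_trans (by norm_num) hL2
  apply Pat.ext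
  funext x
  rcases pos_cases hL (i + 1) x with h | h | ⟨y, rfl⟩
  · rw [E.of_i _ _ h, ins_i _ _ h]
  · rw [E.of_succ _ _ h, ins_succ _ _ h]
  · rw [ins_phi]
    obtain ⟨n1, n2⟩ := phi_not hL (i + 1) y
    by_cases hy : Cg L y i
    · -- the position is `≡ i`
      have e := phi_succ_of hL hy
      have c0 : Cg (L + 2) (phi L (i + 1) y) i := by
        rw [e]
        have := Cg.sub 2 (phi_Cg hL hy)
        rwa [show i + 2 - 2 = i by ring] at this
      have hmy : ¬ Cg L (P.m y) i := by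
        intro h
        exact P.not_dvd_self y (Cg.trans' h (Cg.symm' hy))
      have e1 : (ins i P).m (phi L (i + 1) y) = phi L (i + 1) y + 1 := ins_i _ _ c0
      rw [E.of_m _ _ n1 n2 (by rw [e1]; exact Cg.add 1 c0), e1, e,
        show phi L i y - 2 + 1 + 1 = phi L i y by ring, ins_phi, phi_succ_of_not hL hmy]
    · have e := phi_succ_of_not hL hy
      by_cases hmy : Cg L (P.m y) i
      · have e1 : (ins i P).m (phi L (i + 1) y) = phi L i (P.m y) := by rw [e, ins_phi]
        have c2 : Cg (L + 2) (phi L i (P.m y)) (i + 1 + 1) := by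
          have := phi_Cg hL hmy
          rwa [show i + 2 = i + 1 + 1 by ring] at this
        rw [E.of_m_succ _ _ n1 n2 (by rw [e1]; exact c2), e1]
        have c1 : Cg (L + 2) (phi L i (P.m y) - 1) (i + 1) := by
          have := Cg.sub 1 c2
          rwa [show i + 1 + 1 - 1 = i + 1 by ring] at this
        rw [ins_succ _ _ c1, phi_succ_of hL hmy]
        ring
      · have e1 : (ins i P).m (phi L (i + 1) y) = phi L (i + 1) (P.m y) := by
          rw [e, ins_phi, phi_succ_of_not hL hmy]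
        obtain ⟨m1, m2⟩ := phi_not hL (i + 1) (P.m y)
        rw [E.other _ _ n1 n2 (by rw [e1]; exact m1) (by rw [e1]; exact m2), e1]

/-- rotation of an insertion -/
lemma rot_ins (i : ℤ) (P : Pat L) : rot (ins i P) = ins (i + 1) (rot P) := by
  have hL : 1 ≤ L := le_trans (by norm_num) P.two_le
  apply Pat.ext
  funext x
  rw [rot_m]
  rcases pos_cases hL i (x - 1) with h | h | ⟨y, hy⟩
  · rw [ins_i _ _ h]
    have h' := Cg.add 1 h
    rw [show x - 1 + 1 = x by ring] at h'
    rw [ins_i _ _ h']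
    ring
  · rw [ins_succ _ _ h]
    have h' := Cg.add 1 h
    rw [show x - 1 + 1 = x by ring] at h'
    rw [ins_succ _ _ h']
    ring
  · rw [hy, ins_phi]
    have e : x = phi L (i + 1) (y + 1) := by rw [phi_shift, ← hy]; ring
    rw [e, ins_phi, rot_m, show y + 1 - 1 = y by ring, phi_shift]

/-- positions `j`, `j+1` are not moved by an insertion at `j+2` -/
lemma phi_far (hL2 : 2 ≤ L) (j a : ℤ) :
    phi L (j + 2) (j + L * a) = j + (L + 2) * a ∧
    phi L (j + 2) (j + 1 + L * a) = j + 1 + (L + 2) * a := by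
  have hL : 1 ≤ L := by omega
  have e1 := phi_form hL (j + 2) (a - 1) (L - 2) (by omega) (by omega)
  have e2 := phi_form hL (j + 2) (a - 1) (L - 1) (by omega) (by omega)
  rw [show j + 2 + ((L : ℤ) - 2) + L * (a - 1) = j + L * a by ring] at e1
  rw [show j + 2 + ((L : ℤ) - 1) + L * (a - 1) = j + 1 + L * a by ring] at e2
  rw [e1, e2]
  constructor <;> ring

lemma phi_far_Cg (hL2 : 2 ≤ L) (j y : ℤ) :
    (Cg (L + 2) (phi L (j + 2) y) j ↔ Cg L y j) ∧
    (Cg (L + 2) (phi L (j + 2) y) (j + 1) ↔ Cg L y (j + 1)) := by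
  have hL : 1 ≤ L := by omega
  refine ⟨⟨?_, ?_⟩, ⟨?_, ?_⟩⟩
  · intro h
    obtain ⟨a, ha⟩ := Cg_def.1 h
    have e : phi L (j + 2) y = phi L (j + 2) (j + L * a) := by
      rw [(phi_far hL2 j a).1, ha]; push_cast; ring
    rw [phi_inj hL e]
    exact ⟨a, by ring⟩
  · intro h
    obtain ⟨a, rfl⟩ := Cg_def.1 h
    rw [(phi_far hL2 j a).1]
    exact ⟨a, by push_cast; ring⟩
  · intro h
    obtain ⟨a, ha⟩ := Cg_def.1 h
    have e : phi L (j + 2) y = phi L (j + 2) (j + 1 + L * a) := by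
      rw [(phi_far hL2 j a).2, ha]; push_cast; ring
    rw [phi_inj hL e]
    exact ⟨a, by ring⟩
  · intro h
    obtain ⟨a, rfl⟩ := Cg_def.1 h
    rw [(phi_far hL2 j a).2]
    exact ⟨a, by push_cast; ring⟩

lemma phi_far_add (hL2 : 2 ≤ L) {j y : ℤ} (h : Cg L y j) :
    phi L (j + 2) (y + 1) = phi L (j + 2) y + 1 := by
  obtain ⟨a, rfl⟩ := Cg_def.1 h
  rw [(phi_far hL2 j a).1, show j + (L : ℤ) * a + 1 = j + 1 + L * a by ring,
    (phi_far hL2 j a).2]
  ring

lemma phi_far_sub (hL2 : 2 ≤ L) {j y : ℤ} (h : Cg L y (j + 1)) :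
    phi L (j + 2) (y - 1) = phi L (j + 2) y - 1 := by
  have h' : Cg L (y - 1) j := by
    have := Cg.sub 1 h
    rwa [show j + 1 - 1 = j by ring] at this
  have := phi_far_add hL2 h'
  rw [show y - 1 + 1 = y by ring] at this
  rw [this]
  ring

/-- `e_j` commutes with the insertion at `j + 2` -/
lemma E_ins_far (j : ℤ) (P : Pat L) : E j (ins (j + 2) P) = ins (j + 2) (E j P) := by
  have hL2 := P.two_le
  have hL : 1 ≤ L := by omega
  apply Pat.ext
  funext x
  rcases pos_cases hL (j + 2) x with h | h | ⟨y, rfl⟩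
  · have n1 : ¬ Cg (L + 2) x j := by
      intro h'
      have h2 : Cg (L + 2) (j + 2) j := Cg.trans' (Cg.symm' h) h'
      have := Cg_eq h2 (by push_cast; omega) (by push_cast; omega)
      omega
    have n2 : ¬ Cg (L + 2) x (j + 1) := by
      intro h'
      have h2 : Cg (L + 2) (j + 2) (j + 1) := Cg.trans' (Cg.symm' h) h'
      have := Cg_eq h2 (by push_cast; omega) (by push_cast; omega)
      omega
    have e1 : (ins (j + 2) P).m x = x + 1 := ins_i _ _ h
    have hx1 := Cg.add 1 h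
    have m1 : ¬ Cg (L + 2) (x + 1) j := by
      intro h'
      have h2 : Cg (L + 2) (j + 2 + 1) j := Cg.trans' (Cg.symm' hx1) h'
      have := Cg_eq h2 (by push_cast; omega) (by push_cast; omega)
      omega
    have m2 : ¬ Cg (L + 2) (x + 1) (j + 1) := by
      intro h'
      have h2 : Cg (L + 2) (j + 2 + 1) (j + 1) := Cg.trans' (Cg.symm' hx1) h'
      have := Cg_eq h2 (by push_cast; omega) (by push_cast; omega)
      omega
    rw [E.other _ _ n1 n2 (by rw [e1]; exact m1) (by rw [e1]; exact m2), e1, ins_i _ _ h]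
  · have n1 : ¬ Cg (L + 2) x j := by
      intro h'
      have h2 : Cg (L + 2) (j + 2 + 1) j := Cg.trans' (Cg.symm' h) h'
      have := Cg_eq h2 (by push_cast; omega) (by push_cast; omega)
      omega
    have n2 : ¬ Cg (L + 2) x (j + 1) := by
      intro h'
      have h2 : Cg (L + 2) (j + 2 + 1) (j + 1) := Cg.trans' (Cg.symm' h) h'
      have := Cg_eq h2 (by push_cast; omega) (by push_cast; omega)
      omega
    have e1 : (ins (j + 2) P).m x = x - 1 := ins_succ _ _ h
    have hx1 := Cg.sub 1 h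
    rw [show j + 2 + 1 - 1 = j + 2 by ring] at hx1
    have m1 : ¬ Cg (L + 2) (x - 1) j := by
      intro h'
      have h2 : Cg (L + 2) (j + 2) j := Cg.trans' (Cg.symm' hx1) h'
      have := Cg_eq h2 (by push_cast; omega) (by push_cast; omega)
      omega
    have m2 : ¬ Cg (L + 2) (x - 1) (j + 1) := by
      intro h'
      have h2 : Cg (L + 2) (j + 2) (j + 1) := Cg.trans' (Cg.symm' hx1) h'
      have := Cg_eq h2 (by push_cast; omega) (by push_cast; omega)
      omega
    rw [E.other _ _ n1 n2 (by rw [e1]; exact m1) (by rw [e1]; exact m2), e1, ins_succ _ _ h]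
  · rw [ins_phi]
    obtain ⟨c1, c2⟩ := phi_far_Cg hL2 j y
    obtain ⟨d1, d2⟩ := phi_far_Cg hL2 j (P.m y)
    have e1 : (ins (j + 2) P).m (phi L (j + 2) y) = phi L (j + 2) (P.m y) := ins_phi _ _ _
    by_cases hy1 : Cg L y j
    · rw [E.of_i _ _ (c1.2 hy1), E.of_i _ _ hy1, phi_far_add hL2 hy1]
    by_cases hy2 : Cg L y (j + 1)
    · rw [E.of_succ _ _ (c2.2 hy2), E.of_succ _ _ hy2, phi_far_sub hL2 hy2]
    have n1 : ¬ Cg (L + 2) (phi L (j + 2) y) j := fun h => hy1 (c1.1 h)
    have n2 : ¬ Cg (L + 2) (phi L (j + 2) y) (j + 1) := fun h => hy2 (c2.1 h)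
    by_cases hm1 : Cg L (P.m y) j
    · rw [E.of_m _ _ n1 n2 (by rw [e1]; exact d1.2 hm1), E.of_m _ _ hy1 hy2 hm1, e1,
        ← phi_far_add hL2 hm1, ins_phi]
    by_cases hm2 : Cg L (P.m y) (j + 1)
    · rw [E.of_m_succ _ _ n1 n2 (by rw [e1]; exact d2.2 hm2), E.of_m_succ _ _ hy1 hy2 hm2, e1,
        ← phi_far_sub hL2 hm2, ins_phi]
    rw [E.other _ _ n1 n2 (by rw [e1]; exact fun h => hm1 (d1.1 h))
      (by rw [e1]; exact fun h => hm2 (d2.1 h)), E.other _ _ hy1 hy2 hm1 hm2, e1]

lemma rot_injective : Function.Injective (rot (L := L)) := by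
  intro P Q h
  apply Pat.ext
  funext x
  have h1 : (rot P).m (x + 1) = (rot Q).m (x + 1) := by rw [h]
  rw [rot_m, rot_m, show x + 1 - 1 = x by ring] at h1
  linarith

lemma rot_surjective : Function.Surjective (rot (L := L)) :=
  (Finite.injective_iff_surjective).1 rot_injective

/-- The base pattern of size `L+2`. -/
lemma base_ins (P : Pat L) (h : IsBase P) : ∃ B : Pat (L + 2), IsBase B ∧ ins 0 P = rot B := by
  have hL2 := P.two_le
  have hL : 1 ≤ L := by omega
  obtain ⟨B, hB⟩ := rot_surjective (ins 0 P)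
  refine ⟨B, ?_, hB.symm⟩
  intro x h1 h2
  push_cast at h1 h2
  have e : B.m x = (ins 0 P).m (x + 1) - 1 := by
    rw [← hB, rot_m, show x + 1 - 1 = x by ring]; ring
  rw [e]
  have pos : ∀ s : ℤ, 0 ≤ s → s < L → phi L 0 s = s + 2 := by
    intro s hs0 hs1
    have := phi_form hL 0 0 s hs0 hs1
    rw [show (0 : ℤ) + s + L * 0 = s by ring] at this
    rw [this]; ring
  have neg : ∀ s : ℤ, -(L : ℤ) ≤ s → s < 0 → phi L 0 s = s := by
    intro s hs0 hs1
    have := phi_form hL 0 (-1) (s + L) (by omega) (by omega)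
    rw [show (0 : ℤ) + (s + L) + L * (-1) = s by ring] at this
    rw [this]; ring
  rcases lt_trichotomy x (-1) with hx | hx | hx
  · -- `x + 1 < 0`
    have e1 : x + 1 = phi L 0 (x + 1) := (neg (x + 1) (by omega) (by omega)).symm
    have e2 : (ins 0 P).m (x + 1) = phi L 0 (P.m (x + 1)) := by
      conv_lhs => rw [e1]
      exact ins_phi _ _ _
    rw [e2, h (x + 1) (by omega) (by omega), pos _ (by omega) (by omega)]
    ring
  · subst hx
    have c : Cg (L + 2) (-1 + 1) 0 := Cg.refl' _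
    rw [ins_i _ _ c]
    ring
  · rcases eq_or_lt_of_le (show 0 ≤ x by omega) with hx0 | hx0
    · subst hx0
      have c : Cg (L + 2) (0 + 1) (0 + 1) := Cg.refl' _
      rw [ins_succ _ _ c]
      ring
    · have e1 : x + 1 = phi L 0 (x - 1) := by
        rw [pos (x - 1) (by omega) (by omega)]; ring
      have e2 : (ins 0 P).m (x + 1) = phi L 0 (P.m (x - 1)) := by
        rw [e1]
        exact ins_phi _ _ _
      rw [e2, h (x - 1) (by omega) (by omega), neg _ (by omega) (by omega)]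
      ring

end Pool.Agent.H14.EX
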